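import Mathlib

/-! # Convex functions of a nonnegative function, grid sums -/

set_option autoImplicit false

open MeasureTheory Set Filter Topology

namespace Pool.Agent.Y749.SF

/-- comparison of the grid sums of the primitive of a nonnegative function -/
lemma grid {g : ℝ → ℝ} (hg : Continuous g) {a R : ℝ} (haR : a ≤ R)
    (hg0 : ∀ x ∈ Icc a R, 0 ≤ g x) {n : ℕ} (hn : 0 < n) :
    (∫ x in a..R, (R - x) * g x) ≤ (R - a) / n *
      ∑ k ∈ Finset.range n, ∫ x in a..(a + (k + 1 : ℕ) * ((R - a) / n)), g x ∧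
    (R - a) / n * ∑ k ∈ Finset.range n, ∫ x in a..(a + (k + 1 : ℕ) * ((R - a) / n)), g x ≤
      (∫ x in a..R, (R - x) * g x) + (R - a) / n * ∫ x in a..R, g x := by
  have hn0 : (0 : ℝ) < n := by exact_mod_cast hn
  obtain ⟨D, hD⟩ : ∃ D : ℝ, D = (R - a) / n := ⟨_, rfl⟩
  have hD0 : 0 ≤ D := by rw [hD]; exact div_nonneg (by linarith) hn0.le
  have hDn : n * D = R - a := by rw [hD]; field_simp
  rw [← hD]
  obtain ⟨S, hS⟩ : ∃ S : ℝ → ℝ, ∀ x, S x = ∫ y in a..x, g y := ⟨_, fun x => rfl⟩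
  have hgi : ∀ p q : ℝ, IntervalIntegrable g volume p q := fun p q => hg.intervalIntegrable p q
  have hSd : ∀ x, HasDerivAt S (g x) x := by
    intro x
    have h1 := intervalIntegral.integral_hasDerivAt_right (hgi a x)
      (hg.stronglyMeasurableAtFilter _ _) hg.continuousAt
    exact h1.congr_of_eventuallyEq (Eventually.of_forall fun y => hS y)
  have hSc : Continuous S := continuous_iff_continuousAt.2 fun x => (hSd x).continuousAt
  have hSi : ∀ p q : ℝ, IntervalIntegrable S volume p q := fun p q => hSc.intervalIntegrable p q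
  have hSm : ∀ x y, a ≤ x → x ≤ y → y ≤ R → S x ≤ S y := by
    intro x y hx hxy hy
    have h1 : S y - S x = ∫ t in x..y, g t := by
      rw [hS, hS]
      exact intervalIntegral.integral_interval_sub_left (hgi _ _) (hgi _ _)
    have h2 : 0 ≤ ∫ t in x..y, g t :=
      intervalIntegral.integral_nonneg hxy fun t ht => hg0 t ⟨hx.trans ht.1, ht.2.trans hy⟩
    linarith
  have hSa : S a = 0 := by rw [hS]; simp
  have hparts : ∫ x in a..R, (R - x) * g x = ∫ x in a..R, S x := by
    have h1 := intervalIntegral.integral_mul_deriv_eq_deriv_mul (a := a) (b := R)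
      (u := S) (v := fun x => x - R) (u' := g) (v' := fun _ => (1 : ℝ))
      (fun x _ => hSd x) (fun x _ => (hasDerivAt_id x).sub_const R) (hgi _ _) (by simp)
    simp only [mul_one, sub_self, mul_zero, zero_sub] at h1
    rw [hSa, zero_mul, neg_zero, zero_sub] at h1
    rw [h1, ← intervalIntegral.integral_neg]
    refine intervalIntegral.integral_congr fun x _ => ?_
    ring
  obtain ⟨x, hx⟩ : ∃ x : ℕ → ℝ, ∀ k : ℕ, x k = a + k * D := ⟨_, fun k => rfl⟩
  have hx0 : x 0 = a := by rw [hx]; simp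
  have hxn : x n = R := by rw [hx, hDn]; ring
  have hxs : ∀ k, x (k + 1) = x k + D := by
    intro k
    rw [hx, hx]
    push_cast; ring
  have hxa : ∀ k, a ≤ x k := by
    intro k
    rw [hx]
    have : (0 : ℝ) ≤ k * D := by positivity
    linarith
  have hxb : ∀ k, k ≤ n → x k ≤ R := by
    intro k hk
    rw [← hxn, hx, hx]
    have : (k : ℝ) ≤ n := by exact_mod_cast hk
    have := mul_le_mul_of_nonneg_right this hD0
    linarith
  have hsum : ∑ k ∈ Finset.range n, ∫ t in (x k)..(x (k + 1)), S t = ∫ t in a..R, S t := by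
    rw [intervalIntegral.sum_integral_adjacent_intervals fun k _ => hSi _ _, hx0, hxn]
  have hup : ∀ k ∈ Finset.range n, ∫ t in (x k)..(x (k + 1)), S t ≤ D * S (x (k + 1)) := by
    intro k hk
    have hk' := Finset.mem_range.1 hk
    have hle : x k ≤ x (k + 1) := by rw [hxs]; linarith
    calc ∫ t in (x k)..(x (k + 1)), S t ≤ ∫ t in (x k)..(x (k + 1)), S (x (k + 1)) :=
          intervalIntegral.integral_mono_on hle (hSi _ _) (by simp) fun t ht =>
            hSm t _ ((hxa k).trans ht.1) ht.2 (hxb _ hk')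
      _ = D * S (x (k + 1)) := by
          rw [intervalIntegral.integral_const, smul_eq_mul, hxs]; ring
  have hlow : ∀ k ∈ Finset.range n, D * S (x k) ≤ ∫ t in (x k)..(x (k + 1)), S t := by
    intro k hk
    have hk' := Finset.mem_range.1 hk
    have hle : x k ≤ x (k + 1) := by rw [hxs]; linarith
    calc D * S (x k) = ∫ t in (x k)..(x (k + 1)), S (x k) := by
          rw [intervalIntegral.integral_const, smul_eq_mul, hxs]; ring
      _ ≤ ∫ t in (x k)..(x (k + 1)), S t :=
          intervalIntegral.integral_mono_on hle (by simp) (hSi _ _) fun t ht =>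
            hSm _ t (hxa k) ht.1 (ht.2.trans (hxb _ hk'))
  have e1 : ∑ k ∈ Finset.range n, ∫ t in a..(a + (k + 1 : ℕ) * D), g t =
      ∑ k ∈ Finset.range n, S (x (k + 1)) := by
    refine Finset.sum_congr rfl fun k _ => ?_
    rw [hS, hx]
  rw [e1, hparts, ← hS R, ← hsum]
  constructor
  · rw [Finset.mul_sum]
    exact Finset.sum_le_sum hup
  · have h1 := Finset.sum_le_sum hlow
    have h2 : ∑ k ∈ Finset.range n, (S (x (k + 1)) - S (x k)) = S (x n) - S (x 0) :=
      Finset.sum_range_sub (fun k => S (x k)) n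
    rw [Finset.sum_sub_distrib, hxn, hx0, hSa, sub_zero] at h2
    rw [← Finset.mul_sum] at h1
    have h3 : ∑ k ∈ Finset.range n, S (x (k + 1)) = ∑ k ∈ Finset.range n, S (x k) + S R := by
      linarith
    rw [h3, mul_add]
    linarith

/-- a strict support line of a convex function at `1` -/
lemma conv_low {φ : ℝ → ℝ} (hφ : ConvexOn ℝ (Ici 0) φ) {p : ℝ}
    (hp : ∀ t : ℝ, 0 ≤ t → t ≠ 1 → φ 1 + p * (t - 1) < φ t) {δ : ℝ} (hδ : 0 < δ) (hδ1 : δ < 1) :
    ∃ c : ℝ, 0 < c ∧ ∀ t : ℝ, 0 ≤ t → c * |t - 1| ≤ c * δ + (φ t - φ 1 - p * (t - 1)) := by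
  obtain ⟨κ, hκ⟩ : ∃ κ : ℝ → ℝ, ∀ t, κ t = φ t - φ 1 - p * (t - 1) := ⟨_, fun t => rfl⟩
  have hκp : ∀ t : ℝ, 0 ≤ t → t ≠ 1 → 0 < κ t := by
    intro t ht h1
    rw [hκ]
    linarith [hp t ht h1]
  have hκ1 : κ 1 = 0 := by rw [hκ]; ring
  have hκn : ∀ t : ℝ, 0 ≤ t → 0 ≤ κ t := by
    intro t ht
    rcases eq_or_ne t 1 with h | h
    · rw [h, hκ1]
    · exact (hκp t ht h).le
  have hA : 0 < κ (1 + δ) := hκp _ (by linarith) (by linarith)
  have hB : 0 < κ (1 - δ) := hκp _ (by linarith) (by linarith)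
  obtain ⟨c, hc⟩ : ∃ c : ℝ, c = min (κ (1 + δ)) (κ (1 - δ)) / δ := ⟨_, rfl⟩
  have hc0 : 0 < c := by rw [hc]; exact div_pos (lt_min hA hB) hδ
  have hcA : c * δ ≤ κ (1 + δ) := by
    rw [hc, div_mul_cancel₀ _ hδ.ne']; exact min_le_left _ _
  have hcB : c * δ ≤ κ (1 - δ) := by
    rw [hc, div_mul_cancel₀ _ hδ.ne']; exact min_le_right _ _
  -- the convexity of κ
  have hconv : ∀ t : ℝ, 0 ≤ t → ∀ l : ℝ, 0 ≤ l → l ≤ 1 → κ (1 + l * (t - 1)) ≤ l * κ t := by
    intro t ht l hl hl1
    have h1 := hφ.2 (x := 1) (y := t) (mem_Ici.2 zero_le_one) (mem_Ici.2 ht)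
      (show 0 ≤ 1 - l by linarith) hl (by ring)
    simp only [smul_eq_mul, mul_one] at h1
    have e : 1 - l + l * t = 1 + l * (t - 1) := by ring
    rw [e] at h1
    rw [hκ, hκ]
    nlinarith
  refine ⟨c, hc0, fun t ht => ?_⟩
  rw [← hκ]
  rcases le_or_gt |t - 1| δ with h | h
  · have := hκn t ht
    nlinarith
  · have hd : 0 < |t - 1| := hδ.trans h
    have hl1 : δ / |t - 1| ≤ 1 := by rw [div_le_one hd]; exact h.le
    have hl0 : 0 ≤ δ / |t - 1| := by positivity
    have h2 := hconv t ht (δ / |t - 1|) hl0 hl1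
    have h3 : c * δ ≤ κ (1 + δ / |t - 1| * (t - 1)) := by
      rcases abs_cases (t - 1) with ⟨h4, h5⟩ | ⟨h4, h5⟩
      · rw [h4]
        have : t - 1 ≠ 0 := by
          intro h6
          rw [h4, h6] at hd
          exact lt_irrefl _ hd
        rw [div_mul_cancel₀ _ this]
        exact hcA
      · rw [h4]
        have : t - 1 ≠ 0 := by linarith
        have e : 1 + δ / -(t - 1) * (t - 1) = 1 - δ := by
          field_simp
          ring
        rw [e]
        exact hcB
    have h6 : c * δ ≤ δ / |t - 1| * κ t := h3.trans h2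
    have h7 : δ / |t - 1| * κ t = δ * κ t / |t - 1| := by ring
    rw [h7, le_div_iff₀ hd] at h6
    have h8 : c * |t - 1| ≤ κ t := by
      have : δ * (c * |t - 1|) ≤ δ * κ t := by nlinarith
      exact le_of_mul_le_mul_left this hδ
    nlinarith

end Pool.Agent.Y749.SF
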