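import Pool.Agent.Y749.Rig.FFf

/-! # Weighted means of the form factor: bounds from below and above -/

set_option autoImplicit false

open MeasureTheory Set Filter Topology

namespace Pool.Agent.Y749.SF

open Pool.Agent.Y749.Rig
open Pool.Agent.Y744 (Aa)

lemma ci {g : ℝ → ℝ} (hg : Continuous g) (p q : ℝ) : IntervalIntegrable g volume p q :=
  hg.intervalIntegrable p q

/-- decomposition of the pairing with the tent -/
lemma tr_split {R : ℝ} (hR : 0 < R) (a : ℝ) {g : ℝ → ℝ} (hg : Continuous g)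
    (hge : ∀ x, g (-x) = g x) :
    ∫ α, tr R α * g α = (∫ α in (-a)..a, tr R α * g α) + 2 * ∫ α in a..R, tr R α * g α := by
  have c1 : Continuous fun α => tr R α * g α := (tr_cont R).mul hg
  rw [int_supp hR (fun x hx => by rw [tr_supp hR x hx, zero_mul])]
  rw [← intervalIntegral.integral_add_adjacent_intervals (a := -R) (b := -a) (c := R)
    (ci c1 _ _) (ci c1 _ _), ← intervalIntegral.integral_add_adjacent_intervals (a := -a)
    (b := a) (c := R) (ci c1 _ _) (ci c1 _ _)]
  have : ∫ α in (-R)..(-a), tr R α * g α = ∫ α in a..R, tr R α * g α := by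
    have h6 := intervalIntegral.integral_comp_neg (a := a) (b := R) (fun α => tr R α * g α)
    rw [← h6]
    refine intervalIntegral.integral_congr fun α _ => ?_
    show tr R (-α) * g (-α) = tr R α * g α
    rw [tr_even, hge]
  rw [this]
  ring

lemma tr_lin {R : ℝ} (hR : 0 < R) {a : ℝ} (ha : 0 ≤ a) (haR : a ≤ R) (g : ℝ → ℝ) :
    ∫ α in a..R, tr R α * g α = 1 / R ^ 2 * ∫ α in a..R, (R - α) * g α := by
  rw [← intervalIntegral.integral_const_mul]
  refine intervalIntegral.integral_congr fun α hα => ?_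
  rw [uIcc_of_le haR] at hα
  show tr R α * g α = 1 / R ^ 2 * ((R - α) * g α)
  rw [tr_eq hR (ha.trans hα.1) hα.2]
  field_simp

/-- the mass at the origin, from below -/
lemma near0_low (RH : RiemannHypothesis) {η : ℝ} (hη : 0 < η) {δ : ℝ} (hδ : 0 < δ) (hδ1 : δ < 1) :
    ∀ᶠ T in atTop, 1 - η ≤ ∫ α in (-δ)..δ, Fr T α := by
  have hlim := Fr_lim (tr_int hδ) (fl_qd (adm_tr hδ)) le_rfl
    (test_limRH RH (adm_tr hδ) hδ hδ1)
  have hcc : 1 ≤ δ * cc (tr δ) := by
    unfold cc
    have e1 : tr δ 0 = 1 / δ := by unfold tr; simp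
    have e2 : 0 ≤ ∫ α, |α| * tr δ α :=
      integral_nonneg fun α => mul_nonneg (abs_nonneg _) (tr_nonneg hδ _)
    rw [e1]
    have : δ * (1 / δ + ∫ α, |α| * tr δ α) = 1 + δ * ∫ α, |α| * tr δ α := by
      field_simp
    rw [this]
    nlinarith
  have hev := (hlim.const_mul δ).eventually (le_mem_nhds (show 1 - η < δ * cc (tr δ) by linarith))
  filter_upwards [hev, eventually_ge_atTop 10] with T h1 hT
  have hF0 := Fr_nonneg hT
  have hFc := Fr_cont T
  refine h1.trans ?_
  rw [int_supp hδ (fun x hx => by rw [tr_supp hδ x hx, zero_mul]),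
    ← intervalIntegral.integral_const_mul]
  refine intervalIntegral.integral_mono_on (by linarith) ?_ (ci hFc _ _) fun α _ => ?_
  · exact ci (continuous_const.mul ((tr_cont δ).mul hFc)) _ _
  · have h2 : δ * tr δ α ≤ 1 := by
      unfold tr
      rw [mul_div_cancel₀ _ hδ.ne']
      apply max_le (by norm_num)
      have : 0 ≤ |α| / δ := by positivity
      linarith
    calc δ * (tr δ α * Fr T α) = (δ * tr δ α) * Fr T α := by ring
      _ ≤ 1 * Fr T α := mul_le_mul_of_nonneg_right h2 (hF0 α)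
      _ = _ := one_mul _

lemma mn_tail {R a : ℝ} (hR : 1 ≤ R) (ha : 0 ≤ a) (haR : a ≤ R) :
    (∫ α in a..R, (R - α) * mn α) ≤ R ^ 2 / 2 - R / 2 + 1 / 6 ∧
    R ^ 2 / 2 - R / 2 + 1 / 6 - a * R ≤ ∫ α in a..R, (R - α) * mn α := by
  have hR0 : 0 < R := by linarith
  have c2 : Continuous fun α => tr R α * mn α := (tr_cont R).mul mn_cont
  have h1 := tr_mn hR
  have h2 : ∫ α in (0 : ℝ)..R, tr R α * mn α = (∫ α in (0 : ℝ)..a, tr R α * mn α) +
      ∫ α in a..R, tr R α * mn α := by
    rw [intervalIntegral.integral_add_adjacent_intervals (ci c2 _ _) (ci c2 _ _)]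
  have h3 : 0 ≤ ∫ α in (0 : ℝ)..a, tr R α * mn α :=
    intervalIntegral.integral_nonneg ha fun x _ => mul_nonneg (tr_nonneg hR0 x) (mn_nonneg x)
  have h4 : ∫ α in (0 : ℝ)..a, tr R α * mn α ≤ a * (1 / R) := by
    calc ∫ α in (0 : ℝ)..a, tr R α * mn α ≤ ∫ α in (0 : ℝ)..a, 1 / R := by
          refine intervalIntegral.integral_mono_on ha (ci c2 _ _) (by simp) fun x hx => ?_
          have h5 : tr R x ≤ 1 / R := by
            unfold tr
            apply div_le_div_of_nonneg_right _ hR0.le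
            apply max_le (by norm_num)
            have : 0 ≤ |x| / R := by positivity
            linarith
          calc tr R x * mn x ≤ 1 / R * 1 := by
                apply mul_le_mul h5 (mn_le x) (mn_nonneg x) (by positivity)
            _ = 1 / R := mul_one _
      _ = a * (1 / R) := by simp
  rw [h1, tr_lin hR0 ha haR] at h2
  have e1 : R ^ 2 * (1 / R ^ 2 * ∫ α in a..R, (R - α) * mn α) = ∫ α in a..R, (R - α) * mn α := by
    field_simp
  have e2 : R ^ 2 * (1 / 2 - 1 / (2 * R) + 1 / (6 * R ^ 2)) = R ^ 2 / 2 - R / 2 + 1 / 6 := by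
    field_simp
  have e3 : R ^ 2 * (a * (1 / R)) = a * R := by field_simp
  have hR2 : 0 < R ^ 2 := by positivity
  constructor
  · rw [← e1, ← e2]
    apply mul_le_mul_of_nonneg_left _ hR2.le
    linarith
  · rw [← e1, ← e2, ← e3, ← mul_sub]
    apply mul_le_mul_of_nonneg_left _ hR2.le
    linarith

/-- the lower bound for the weighted mean -/
theorem low (RH : RiemannHypothesis) {R : ℝ} (hR : 1 ≤ R) {ε : ℝ} (hε : 0 < ε) :
    ∃ a0 : ℝ, 0 < a0 ∧ ∀ a : ℝ, 0 < a → a ≤ a0 → ∀ᶠ T in atTop,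
      -(1 / 6) - ε ≤ (∫ α in a..R, (R - α) * Fr T α) - ∫ α in a..R, (R - α) * mn α := by
  have hR0 : 0 < R := by linarith
  obtain ⟨e, he⟩ : ∃ e : ℝ, e = ε / R ^ 2 := ⟨_, rfl⟩
  have he0 : 0 < e := by rw [he]; positivity
  obtain ⟨δ0, hδ0, hnear⟩ := near0 RH (η := R * e) (by positivity)
  refine ⟨min δ0 R, lt_min hδ0 hR0, fun a ha ha0 => ?_⟩
  have ha1 : a ≤ δ0 := ha0.trans (min_le_left _ _)
  have haR : a ≤ R := ha0.trans (min_le_right _ _)
  filter_upwards [hnear a ha ha1, diag_low hR0 he0, eventually_ge_atTop 10] with T h1 h2 hT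
  have hF0 := Fr_nonneg hT
  have hFc := Fr_cont T
  have c1 : Continuous fun α => tr R α * Fr T α := (tr_cont R).mul hFc
  rw [tr_split hR0 a hFc (Fr_even T), tr_lin hR0 ha.le haR] at h2
  have d2 : ∫ α in (-a)..a, tr R α * Fr T α ≤ 1 / R * (1 + R * e) := by
    calc ∫ α in (-a)..a, tr R α * Fr T α ≤ ∫ α in (-a)..a, 1 / R * Fr T α := by
          refine intervalIntegral.integral_mono_on (by linarith) (ci c1 _ _)
            (ci (continuous_const.mul hFc) _ _) fun α _ => ?_
          apply mul_le_mul_of_nonneg_right _ (hF0 α)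
          unfold tr
          apply div_le_div_of_nonneg_right _ hR0.le
          apply max_le (by norm_num)
          have : 0 ≤ |α| / R := by positivity
          linarith
      _ = 1 / R * ∫ α in (-a)..a, Fr T α := intervalIntegral.integral_const_mul _ _
      _ ≤ _ := by gcongr
  have h3 := (mn_tail hR ha.le haR).1
  obtain ⟨I, hI⟩ : ∃ I : ℝ, I = ∫ α in a..R, (R - α) * Fr T α := ⟨_, rfl⟩
  rw [← hI] at h2 ⊢
  have h4 : 1 - e ≤ 1 / R * (1 + R * e) + 2 * (1 / R ^ 2 * I) := by linarith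
  have h5 : R ^ 2 * (1 - e) ≤ R ^ 2 * (1 / R * (1 + R * e) + 2 * (1 / R ^ 2 * I)) :=
    mul_le_mul_of_nonneg_left h4 (by positivity)
  have e1 : R ^ 2 * (1 / R * (1 + R * e) + 2 * (1 / R ^ 2 * I)) = R + R ^ 2 * e + 2 * I := by
    field_simp
  have e2 : R ^ 2 * e = ε := by rw [he]; field_simp
  rw [e1] at h5
  nlinarith

end Pool.Agent.Y749.SF
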