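import Pool.Agent.Y749.SF.B

/-! # The upper bound for the weighted mean from weak repulsion -/

set_option autoImplicit false

open MeasureTheory Set Filter Topology

namespace Pool.Agent.Y749.SF

open Pool.Agent.Y749.Rig
open Pool.Agent.Y744 (Aa)

lemma fl_le_one {R : ℝ} (hR : 0 < R) (x : ℝ) : fl (tr R) x ≤ 1 := by
  rw [← int_tr hR]
  unfold fl
  refine integral_mono ?_ (tr_int hR) fun α => ?_
  · refine (tr_int hR).mul_bdd (c := 1) (by fun_prop) (ae_of_all _ fun α => ?_)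
    rw [Real.norm_eq_abs]
    exact Real.abs_cos_le_one _
  · simp only
    have h1 := tr_nonneg hR α
    have h2 := Real.cos_le_one (2 * Real.pi * α * x)
    nlinarith

lemma fl_le_sq {R : ℝ} (hR : 0 < R) {x : ℝ} (hx : x ≠ 0) : fl (tr R) x ≤ 1 / (9 * R ^ 2 * x ^ 2) := by
  rw [fl_tr hR hx, div_pow]
  have h1 := Real.pi_gt_three
  have h2 := Real.sin_sq_le_one (Real.pi * R * x)
  have h3 : 0 < x ^ 2 := by positivity
  have h4 : 9 * R ^ 2 * x ^ 2 ≤ (Real.pi * R * x) ^ 2 := by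
    have : 9 ≤ Real.pi ^ 2 := by nlinarith
    calc 9 * R ^ 2 * x ^ 2 ≤ Real.pi ^ 2 * R ^ 2 * x ^ 2 := by gcongr
      _ = _ := by ring
  apply div_le_div₀ (by norm_num) h2 (by positivity) h4

/-- halving the window -/
lemma halve {T R v : ℝ} (hR : 0 < R) (hv : 0 < v) :
    ∫ x in Icc (-v) v, fl (tr R) x ∂(Mp T) ≤
      (∫ x in Icc (-(v / 2)) (v / 2), fl (tr R) x ∂(Mp T)) +
      ((Mp T).real (Icc (-v) v) - (Mp T).real (Icc (-(v / 2)) (v / 2))) * (1 / (2 * R ^ 2 * v ^ 2)) := by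
  have hfin := Mp_fin T
  have hfi : Integrable (fl (tr R)) (Mp T) := by
    refine Integrable.of_bound (C := 1) (fl_cont (tr_int hR)).aestronglyMeasurable
      (ae_of_all _ fun x => ?_)
    rw [Real.norm_eq_abs, abs_of_nonneg (fl_tr_nonneg hR x)]
    exact fl_le_one hR x
  have hsub : Icc (-(v / 2)) (v / 2) ⊆ Icc (-v) v :=
    Icc_subset_Icc (by linarith) (by linarith)
  have h1 : ∫ x in Icc (-v) v, fl (tr R) x ∂(Mp T) =
      (∫ x in Icc (-(v / 2)) (v / 2), fl (tr R) x ∂(Mp T)) +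
      ∫ x in Icc (-v) v \ Icc (-(v / 2)) (v / 2), fl (tr R) x ∂(Mp T) := by
    rw [← setIntegral_union disjoint_sdiff_right (measurableSet_Icc.diff measurableSet_Icc)
      hfi.integrableOn hfi.integrableOn, union_sdiff_cancel hsub]
  have h2 : (Mp T).real (Icc (-v) v \ Icc (-(v / 2)) (v / 2)) =
      (Mp T).real (Icc (-v) v) - (Mp T).real (Icc (-(v / 2)) (v / 2)) :=
    measureReal_sdiff hsub measurableSet_Icc
  rw [h1, ← h2]
  gcongr
  calc ∫ x in Icc (-v) v \ Icc (-(v / 2)) (v / 2), fl (tr R) x ∂(Mp T) ≤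
        ∫ x in Icc (-v) v \ Icc (-(v / 2)) (v / 2), 1 / (2 * R ^ 2 * v ^ 2) ∂(Mp T) := by
        refine setIntegral_mono_on hfi.integrableOn (integrable_const _).integrableOn
          (measurableSet_Icc.diff measurableSet_Icc) fun x hx => ?_
        have hx1 : v / 2 < |x| := by
          by_contra hcon
          push Not at hcon
          exact hx.2 ⟨(abs_le.1 hcon).1, (abs_le.1 hcon).2⟩
        have hx0 : x ≠ 0 := by
          intro h
          rw [h, abs_zero] at hx1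
          linarith
        refine (fl_le_sq hR hx0).trans ?_
        have h3 : (v / 2) ^ 2 ≤ x ^ 2 := by
          rw [← sq_abs x]
          exact pow_le_pow_left₀ (by positivity) hx1.le 2
        apply one_div_le_one_div_of_le (by positivity)
        have : 0 < R ^ 2 := by positivity
        nlinarith
    _ = _ := by rw [setIntegral_const, smul_eq_mul]

/-- iteration -/
lemma halve_iter {T R v0 ε e : ℝ} (hR : 0 < R) (hv : 0 < v0) (J : ℕ)
    (h : ∀ j ≤ J, (Mp T).real (Icc (-(v0 / 2 ^ j)) (v0 / 2 ^ j)) ≤ 1 + ε * (v0 / 2 ^ j))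
    (h0 : 1 - e ≤ (Mp T).real {0}) :
    ∫ x in Icc (-v0) v0, fl (tr R) x ∂(Mp T) ≤
      (∫ x in Icc (-(v0 / 2 ^ J)) (v0 / 2 ^ J), fl (tr R) x ∂(Mp T)) +
      ∑ j ∈ Finset.range J, (ε * (v0 / 2 ^ j) + e) * (4 ^ j / (2 * R ^ 2 * v0 ^ 2)) := by
  have hfin := Mp_fin T
  induction J with
  | zero => simp
  | succ J ih =>
    have h1 := ih fun j hj => h j (by omega)
    refine h1.trans ?_
    have hvJ : 0 < v0 / 2 ^ J := by positivity
    have h2 := halve (T := T) hR hvJ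
    have e1 : v0 / 2 ^ J / 2 = v0 / 2 ^ (J + 1) := by rw [pow_succ]; field_simp
    rw [e1] at h2
    have h3 := h J (by omega)
    have h4 : (Mp T).real {0} ≤ (Mp T).real (Icc (-(v0 / 2 ^ (J + 1))) (v0 / 2 ^ (J + 1))) := by
      refine measureReal_mono ?_
      rw [singleton_subset_iff]
      have : 0 < v0 / 2 ^ (J + 1) := by positivity
      exact ⟨by linarith, this.le⟩
    have h5 : ((Mp T).real (Icc (-(v0 / 2 ^ J)) (v0 / 2 ^ J)) -
        (Mp T).real (Icc (-(v0 / 2 ^ (J + 1))) (v0 / 2 ^ (J + 1)))) *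
        (1 / (2 * R ^ 2 * (v0 / 2 ^ J) ^ 2)) ≤
        (ε * (v0 / 2 ^ J) + e) * (4 ^ J / (2 * R ^ 2 * v0 ^ 2)) := by
      have e2 : 1 / (2 * R ^ 2 * (v0 / 2 ^ J) ^ 2) = 4 ^ J / (2 * R ^ 2 * v0 ^ 2) := by
        have : (4 : ℝ) ^ J = (2 ^ J) ^ 2 := by
          rw [← pow_mul, mul_comm J 2, pow_mul]; norm_num
        rw [this]
        field_simp
      rw [e2]
      apply mul_le_mul_of_nonneg_right _ (by positivity)
      linarith
    rw [Finset.sum_range_succ]
    linarith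

/-- the windows near the origin are not too full -/
def Rep (l : Filter ℝ) : Prop := ∀ ε : ℝ, 0 < ε → ∃ v0 : ℝ, 0 < v0 ∧ ∀ v : ℝ, 0 < v → v ≤ v0 →
  ∀ᶠ T in l, Aa T v ≤ 1 + ε * v

lemma geo_sum {ε v0 e R : ℝ} (hε : 0 ≤ ε) (he : 0 ≤ e) (hv : 0 < v0) (J : ℕ)
    (hR : R = 2 ^ J / v0) :
    ∑ j ∈ Finset.range J, (ε * (v0 / 2 ^ j) + e) * (4 ^ j / (2 * R ^ 2 * v0 ^ 2)) ≤
      ε / (2 * R) + e := by
  have hR0 : 0 < R := by rw [hR]; positivity
  have h2 : ∀ n : ℕ, ∑ j ∈ Finset.range n, (2 : ℝ) ^ j ≤ 2 ^ n := by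
    intro n
    rw [geom_sum_eq (by norm_num)]
    norm_num
  have h4 : ∀ n : ℕ, ∑ j ∈ Finset.range n, (4 : ℝ) ^ j ≤ 4 ^ n := by
    intro n
    rw [geom_sum_eq (by norm_num)]
    have : (1 : ℝ) ≤ 4 ^ n := one_le_pow₀ (by norm_num)
    linarith
  have e1 : ∀ j ∈ Finset.range J, (ε * (v0 / 2 ^ j) + e) * (4 ^ j / (2 * R ^ 2 * v0 ^ 2)) =
      ε / (2 * R ^ 2 * v0) * 2 ^ j + e / (2 * R ^ 2 * v0 ^ 2) * 4 ^ j := by
    intro j _
    have : (4 : ℝ) ^ j = 2 ^ j * 2 ^ j := by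
      rw [← mul_pow]; norm_num
    rw [this]
    field_simp
  rw [Finset.sum_congr rfl e1, Finset.sum_add_distrib, ← Finset.mul_sum, ← Finset.mul_sum]
  have h5 : ε / (2 * R ^ 2 * v0) * ∑ j ∈ Finset.range J, (2 : ℝ) ^ j ≤ ε / (2 * R) := by
    calc _ ≤ ε / (2 * R ^ 2 * v0) * 2 ^ J := by
          apply mul_le_mul_of_nonneg_left (h2 J) (by positivity)
      _ = ε / (2 * R) := by
          have : (2 : ℝ) ^ J = R * v0 := by rw [hR]; field_simp
          rw [this]
          field_simp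
  have h6 : e / (2 * R ^ 2 * v0 ^ 2) * ∑ j ∈ Finset.range J, (4 : ℝ) ^ j ≤ e := by
    calc _ ≤ e / (2 * R ^ 2 * v0 ^ 2) * 4 ^ J := by
          apply mul_le_mul_of_nonneg_left (h4 J) (by positivity)
      _ = e / 2 := by
          have : (4 : ℝ) ^ J = (R * v0) ^ 2 := by
            rw [hR, div_mul_cancel₀ _ hv.ne', ← pow_mul, mul_comm J 2, pow_mul]
            norm_num
          rw [this]
          field_simp
      _ ≤ e := by linarith
  linarith

/-- the pairing with the tent, from above -/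
theorem tent_up {l : Filter ℝ} (hl : l ≤ atTop) (h : Rep l) {ε : ℝ} (hε : 0 < ε) :
    ∃ v0 C : ℝ, 0 < v0 ∧ 0 ≤ C ∧ ∀ J : ℕ, ∀ R : ℝ, R = 2 ^ J / v0 → ∀ e : ℝ, 0 < e →
      ∀ᶠ T in l, ∫ α, tr R α * Fr T α ≤ 1 + 2 * ε / R + e + C / R ^ 2 := by
  obtain ⟨v0, hv0, hv⟩ := h ε hε
  obtain ⟨C, hC, hB⟩ := Mp_bdd
  have hC0 : 0 ≤ C := by linarith
  have hDD := DD_nonneg 0
  obtain ⟨C1, hC1⟩ : ∃ C1 : ℝ, C1 = (1 + 1 / v0 ^ 2) * (2 * C * DD 0) := ⟨_, rfl⟩
  refine ⟨v0, C1, hv0, by rw [hC1]; positivity, fun J R hR e he => ?_⟩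
  have hR0 : 0 < R := by rw [hR]; positivity
  have hev : ∀ᶠ T in l, ∀ j ∈ Finset.range (J + 1), Aa T (v0 / 2 ^ j) ≤ 1 + ε * (v0 / 2 ^ j) := by
    rw [Filter.eventually_all_finset]
    intro j _
    refine hv _ (by positivity) ?_
    apply div_le_self hv0.le
    exact one_le_pow₀ (by norm_num)
  filter_upwards [hev, hl hB, hl (eventually_ge_atTop 10), hl (Mp_zero he)] with T h1 hBT hT h0
  have hfin := Mp_fin T
  have hfc := fl_cont (tr_int hR0)
  have hwc := ww_cont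
  have hfi : Integrable (fl (tr R)) (Mp T) :=
    Bdd.integrable hC0 hBT hfc (fl_qd (adm_tr hR0))
  have i2 : Integrable (fun x => fl (tr R) x * ww (2 * Real.pi * x / Real.log T)) (Mp T) := by
    refine hfi.mul_bdd (c := 1) (by fun_prop) (ae_of_all _ fun x => ?_)
    rw [Real.norm_eq_abs, abs_of_pos (ww_pos _)]
    exact ww_le _
  have i3 : Integrable (fun x : ℝ => 1 / (1 + x ^ 2)) (Mp T) := by
    refine Bdd.integrable hC0 hBT ?_ ⟨1, fun x => ?_⟩
    · exact continuous_const.div (by fun_prop) fun x => by positivity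
    · rw [abs_of_pos (by positivity)]
  have tail : ∫ x, 1 / (1 + x ^ 2) ∂(Mp T) ≤ 2 * C * DD 0 := by
    have h3 := lint_le hC0 hBT 0
    have e0 : {x : ℝ | ((0 : ℕ) : ℝ) ≤ |x|} = univ := by
      ext x; simp
    rw [e0, Measure.restrict_univ] at h3
    rw [integral_eq_lintegral_of_nonneg_ae (ae_of_all _ fun x => by positivity)
      i3.aestronglyMeasurable]
    exact ENNReal.toReal_le_of_le_ofReal (by positivity) h3
  rw [Fr_pair (tr_int hR0)]
  have s1 : ∫ x, fl (tr R) x * ww (2 * Real.pi * x / Real.log T) ∂(Mp T) ≤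
      ∫ x, ((Icc (-v0) v0).indicator (fl (tr R)) x +
        (1 + 1 / v0 ^ 2) / R ^ 2 * (1 / (1 + x ^ 2))) ∂(Mp T) := by
    refine integral_mono i2 ((hfi.indicator measurableSet_Icc).add (i3.const_mul _)) fun x => ?_
    simp only
    have hf0 := fl_tr_nonneg hR0 x
    have h3 : fl (tr R) x * ww (2 * Real.pi * x / Real.log T) ≤ fl (tr R) x := by
      have := ww_le (2 * Real.pi * x / Real.log T)
      nlinarith
    refine h3.trans ?_
    by_cases hx : x ∈ Icc (-v0) v0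
    · rw [indicator_of_mem hx]
      have : 0 ≤ (1 + 1 / v0 ^ 2) / R ^ 2 * (1 / (1 + x ^ 2)) := by positivity
      linarith
    · rw [indicator_of_notMem hx, zero_add]
      have hx1 : v0 < |x| := by
        by_contra hcon
        push Not at hcon
        exact hx ⟨(abs_le.1 hcon).1, (abs_le.1 hcon).2⟩
      have hx0 : x ≠ 0 := by
        intro h
        rw [h, abs_zero] at hx1
        linarith
      refine (fl_le_sq hR0 hx0).trans ?_
      have h4 : v0 ^ 2 ≤ x ^ 2 := by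
        rw [← sq_abs x]
        exact pow_le_pow_left₀ hv0.le hx1.le 2
      have h5 : 0 < v0 ^ 2 := by positivity
      have h6 : (1 + 1 / v0 ^ 2) / R ^ 2 * (1 / (1 + x ^ 2)) =
          (v0 ^ 2 + 1) / (v0 ^ 2 * R ^ 2 * (1 + x ^ 2)) := by
        field_simp
      rw [h6, div_le_div_iff₀ (by positivity) (by positivity)]
      have h7 : 0 < R ^ 2 := by positivity
      have h8 : v0 ^ 2 * (1 + x ^ 2) ≤ (v0 ^ 2 + 1) * (9 * x ^ 2) := by nlinarith
      calc 1 * (v0 ^ 2 * R ^ 2 * (1 + x ^ 2)) = R ^ 2 * (v0 ^ 2 * (1 + x ^ 2)) := by ring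
        _ ≤ R ^ 2 * ((v0 ^ 2 + 1) * (9 * x ^ 2)) := by gcongr
        _ = _ := by ring
  rw [integral_add (hfi.indicator measurableSet_Icc) (i3.const_mul _),
    integral_indicator measurableSet_Icc, integral_const_mul] at s1
  have s2 := halve_iter (T := T) (ε := ε) (e := e) hR0 hv0 J (fun j hj => by
    rw [Mp_Aa hT]
    exact h1 j (Finset.mem_range.2 (by omega))) h0
  have s3 := geo_sum hε.le he.le hv0 J hR
  have s4 : ∫ x in Icc (-(v0 / 2 ^ J)) (v0 / 2 ^ J), fl (tr R) x ∂(Mp T) ≤ 1 + ε / R := by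
    calc ∫ x in Icc (-(v0 / 2 ^ J)) (v0 / 2 ^ J), fl (tr R) x ∂(Mp T) ≤
          ∫ x in Icc (-(v0 / 2 ^ J)) (v0 / 2 ^ J), (1 : ℝ) ∂(Mp T) :=
          setIntegral_mono_on hfi.integrableOn (integrable_const _).integrableOn
            measurableSet_Icc fun x _ => fl_le_one hR0 x
      _ = (Mp T).real (Icc (-(v0 / 2 ^ J)) (v0 / 2 ^ J)) := by
          rw [setIntegral_const, smul_eq_mul, mul_one]
      _ ≤ 1 + ε * (v0 / 2 ^ J) := by
          rw [Mp_Aa hT]
          exact h1 J (Finset.mem_range.2 (by omega))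
      _ = 1 + ε / R := by
          rw [hR]
          field_simp
  have s5 : (1 + 1 / v0 ^ 2) / R ^ 2 * ∫ x, 1 / (1 + x ^ 2) ∂(Mp T) ≤ C1 / R ^ 2 := by
    calc _ ≤ (1 + 1 / v0 ^ 2) / R ^ 2 * (2 * C * DD 0) := by gcongr
      _ = _ := by rw [hC1]; ring
  have s6 : ε / (2 * R) ≤ ε / R := by
    apply div_le_div_of_nonneg_left hε.le hR0
    linarith
  have s7 : 2 * ε / R = ε / R + ε / R := by ring
  linarith

/-- **The weighted mean from above.** -/
theorem high (RH : RiemannHypothesis) {l : Filter ℝ} (hl : l ≤ atTop) (h : Rep l) {ε : ℝ}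
    (hε : 0 < ε) : ∃ C : ℝ, 0 ≤ C ∧ ∀ R1 : ℝ, ∃ R : ℝ, R1 ≤ R ∧ 1 ≤ R ∧
      (∃ B : ℝ, 0 ≤ B ∧ ∀ a : ℝ, 0 < a → a ≤ R → ∀ᶠ T in l, ∫ α in a..R, Fr T α ≤ B) ∧
      ∃ a0 : ℝ, 0 < a0 ∧ ∀ a : ℝ, 0 < a → a ≤ a0 → ∀ᶠ T in l,
      (∫ α in a..R, (R - α) * Fr T α) - ∫ α in a..R, (R - α) * mn α ≤ ε * R + C := by
  obtain ⟨v0, C, hv0, hC, hup⟩ := tent_up hl h hε
  refine ⟨C + 3, by linarith, fun R1 => ?_⟩
  obtain ⟨J, hJ⟩ := pow_unbounded_of_one_lt (max R1 1 * v0) (one_lt_two : (1 : ℝ) < 2)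
  obtain ⟨R, hR⟩ : ∃ R : ℝ, R = 2 ^ J / v0 := ⟨_, rfl⟩
  have hR2 : max R1 1 ≤ R := by
    rw [hR, le_div_iff₀ hv0]
    exact hJ.le
  have hR1 : 1 ≤ R := (le_max_right _ _).trans hR2
  have hR0 : 0 < R := by linarith
  refine ⟨R, (le_max_left _ _).trans hR2, hR1, ?_, ?_⟩
  · refine ⟨4 * R * (1 + 2 * ε / (2 * R) + 1 + C / (2 * R) ^ 2), by positivity, fun a ha haR => ?_⟩
    filter_upwards [hup (J + 1) (2 * R) (by rw [hR, pow_succ]; ring) 1 one_pos,
      hl (eventually_ge_atTop 10)] with T h1 hT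
    have hF0 := Fr_nonneg hT
    have hFc := Fr_cont T
    have hR20 : 0 < 2 * R := by linarith
    have h2 : 1 / (4 * R) * ∫ α in a..R, Fr T α ≤ ∫ α, tr (2 * R) α * Fr T α := by
      rw [← intervalIntegral.integral_const_mul, intervalIntegral.integral_of_le haR]
      have hi : Integrable fun α => tr (2 * R) α * Fr T α := by
        refine Continuous.integrable_of_hasCompactSupport ?_ ?_
        · have := tr_cont (2 * R)
          fun_prop
        · exact (adm_tr hR20).hcs.mul_right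
      calc ∫ α in Ioc a R, 1 / (4 * R) * Fr T α ≤ ∫ α in Ioc a R, tr (2 * R) α * Fr T α := by
            refine setIntegral_mono_on ?_ hi.integrableOn measurableSet_Ioc fun α hα => ?_
            · have : Continuous fun α => 1 / (4 * R) * Fr T α := by fun_prop
              exact this.continuousOn.integrableOn_Icc.mono_set Ioc_subset_Icc_self
            · apply mul_le_mul_of_nonneg_right _ (hF0 α)
              rw [tr_eq hR20 (by linarith [hα.1]) (by linarith [hα.2]),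
                div_le_div_iff₀ (by positivity) (by positivity)]
              have h3 : α / (2 * R) ≤ 1 / 2 := by
                rw [div_le_div_iff₀ (by positivity) (by norm_num)]
                linarith [hα.2]
              nlinarith
        _ ≤ ∫ α, tr (2 * R) α * Fr T α := by
            refine setIntegral_le_integral hi (ae_of_all _ fun α => ?_)
            exact mul_nonneg (tr_nonneg hR20 _) (hF0 _)
    have h4 := h2.trans h1
    have h5 : 4 * R * (1 / (4 * R) * ∫ α in a..R, Fr T α) ≤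
        4 * R * (1 + 2 * ε / (2 * R) + 1 + C / (2 * R) ^ 2) :=
      mul_le_mul_of_nonneg_left h4 (by positivity)
    have h6 : 4 * R * (1 / (4 * R) * ∫ α in a..R, Fr T α) = ∫ α in a..R, Fr T α := by
      field_simp
    rwa [h6] at h5
  · refine ⟨min (1 / 2) (1 / R), lt_min (by norm_num) (by positivity), fun a ha ha0 => ?_⟩
    have ha1 : a ≤ 1 / 2 := ha0.trans (min_le_left _ _)
    have ha2 : a ≤ 1 / R := ha0.trans (min_le_right _ _)
    have haR' : a * R ≤ 1 := by rwa [le_div_iff₀ hR0] at ha2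
    have haR : a ≤ R := by linarith
    filter_upwards [hup J R hR (1 / R ^ 2) (by positivity), hl (eventually_ge_atTop 10),
      hl (near0_low RH (η := 1 / R) (by positivity) ha (by linarith))] with T h1 hT h2
    have hF0 := Fr_nonneg hT
    have hFc := Fr_cont T
    have c1 : Continuous fun α => tr R α * Fr T α := (tr_cont R).mul hFc
    rw [tr_split hR0 a hFc (Fr_even T), tr_lin hR0 ha.le haR] at h1
    have h3 := (mn_tail hR1 ha.le haR).2
    have haR1 : 0 ≤ 1 - a / R := by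
      have : a / R ≤ 1 := by rwa [div_le_one hR0]
      linarith
    have d2 : 1 / R * (1 - a / R) * (1 - 1 / R) ≤ ∫ α in (-a)..a, tr R α * Fr T α := by
      calc 1 / R * (1 - a / R) * (1 - 1 / R) ≤ 1 / R * (1 - a / R) * ∫ α in (-a)..a, Fr T α := by
            apply mul_le_mul_of_nonneg_left h2 (by positivity)
        _ = ∫ α in (-a)..a, 1 / R * (1 - a / R) * Fr T α :=
            (intervalIntegral.integral_const_mul _ _).symm
        _ ≤ _ := by
            refine intervalIntegral.integral_mono_on (by linarith)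
              (ci (continuous_const.mul hFc) _ _) (ci c1 _ _) fun α hα => ?_
            apply mul_le_mul_of_nonneg_right _ (hF0 α)
            unfold tr
            have h4 : |α| / R ≤ a / R := by
              apply div_le_div_of_nonneg_right _ hR0.le
              exact abs_le.2 ⟨hα.1, hα.2⟩
            have h5 : 1 - a / R ≤ max 0 (1 - |α| / R) := le_max_of_le_right (by linarith)
            calc 1 / R * (1 - a / R) = (1 - a / R) / R := by ring
              _ ≤ _ := by gcongr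
    obtain ⟨I, hI⟩ : ∃ I : ℝ, I = ∫ α in a..R, (R - α) * Fr T α := ⟨_, rfl⟩
    rw [← hI] at h1 ⊢
    have h4 : 1 / R * (1 - a / R) * (1 - 1 / R) + 2 * (1 / R ^ 2 * I) ≤
        1 + 2 * ε / R + 1 / R ^ 2 + C / R ^ 2 := by linarith
    have h5 : R ^ 2 * (1 / R * (1 - a / R) * (1 - 1 / R) + 2 * (1 / R ^ 2 * I)) ≤
        R ^ 2 * (1 + 2 * ε / R + 1 / R ^ 2 + C / R ^ 2) :=
      mul_le_mul_of_nonneg_left h4 (by positivity)
    have e1 : R ^ 2 * (1 / R * (1 - a / R) * (1 - 1 / R) + 2 * (1 / R ^ 2 * I)) =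
        R - 1 - a + a / R + 2 * I := by
      field_simp
      ring
    have e2 : R ^ 2 * (1 + 2 * ε / R + 1 / R ^ 2 + C / R ^ 2) = R ^ 2 + 2 * ε * R + 1 + C := by
      field_simp
    rw [e1, e2] at h5
    have h6 : 0 ≤ a / R := by positivity
    linarith

end Pool.Agent.Y749.SF
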