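import Pool.Agent.Y749.SF.A
import Pool.Agent.Y749.SF.C

/-! # One-sided bounds for convex moments of the form factor -/

set_option autoImplicit false

open MeasureTheory Set Filter Topology

namespace Pool.Agent.Y749.SF

open Pool.Agent.Y749.Rig
open Pool.Agent.Y744 (Aa)

/-- strict support line at `1` -/
structure Sup (φ : ℝ → ℝ) (p : ℝ) : Prop where
  conv : ConvexOn ℝ (Ici 0) φ
  cont : ContinuousOn φ (Ici 0)
  line : ∀ t : ℝ, 0 ≤ t → t ≠ 1 → φ 1 + p * (t - 1) < φ t

/-- the Bregman density -/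
noncomputable def kk (φ : ℝ → ℝ) (p : ℝ) (G : ℝ → ℝ) (α : ℝ) : ℝ :=
  mn α * φ (G α / mn α) - φ 1 * mn α - p * (G α - mn α)

lemma mn_pos {a α : ℝ} (ha : 0 < a) (h : a ≤ α) : 0 < mn α := by
  unfold mn
  exact lt_min (abs_pos.2 (by linarith)) one_pos

variable {φ : ℝ → ℝ} {p : ℝ} {G : ℝ → ℝ}

lemma kk_nonneg (h : Sup φ p) (hG0 : ∀ x, 0 ≤ G x) {a α : ℝ} (ha : 0 < a) (hα : a ≤ α) :
    0 ≤ kk φ p G α := by
  have hm := mn_pos ha hα
  have ht : 0 ≤ G α / mn α := div_nonneg (hG0 α) hm.le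
  have h1 : φ 1 + p * (G α / mn α - 1) ≤ φ (G α / mn α) := by
    rcases eq_or_ne (G α / mn α) 1 with h2 | h2
    · rw [h2]; simp
    · exact (h.line _ ht h2).le
  unfold kk
  have h2 := mul_le_mul_of_nonneg_left h1 hm.le
  have h3 : mn α * (φ 1 + p * (G α / mn α - 1)) = φ 1 * mn α + p * (G α - mn α) := by
    field_simp
  linarith

/-- a globally continuous version -/
lemma glob (h : Sup φ p) (hG : Continuous G) (hG0 : ∀ x, 0 ≤ G x) {a : ℝ} (ha : 0 < a) :
    ∃ H : ℝ → ℝ, Continuous H ∧ ∀ α, a ≤ α → H α = mn α * φ (G α / mn α) := by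
  obtain ⟨b, hb⟩ : ∃ b : ℝ, b = min a 1 := ⟨_, rfl⟩
  have hb0 : 0 < b := by rw [hb]; exact lt_min ha one_pos
  refine ⟨fun α => max b (mn α) * φ (max 0 (G α / max b (mn α))), ?_, fun α hα => ?_⟩
  · have h1 : Continuous fun α => max b (mn α) := continuous_const.max mn_cont
    have h2 : ∀ α, max b (mn α) ≠ 0 := fun α => (hb0.trans_le (le_max_left _ _)).ne'
    have h3 : Continuous fun α => G α / max b (mn α) := hG.div h1 h2
    have h4 : Continuous fun α => φ (max 0 (G α / max b (mn α))) :=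
      h.cont.comp_continuous (continuous_const.max h3) fun α => mem_Ici.2 (le_max_left _ _)
    exact h1.mul h4
  · have h1 : b ≤ mn α := by
      unfold mn
      rw [hb]
      refine min_le_min ?_ le_rfl
      rw [abs_of_nonneg (by linarith)]
      exact hα
    have hm := mn_pos ha hα
    simp only
    rw [max_eq_right h1, max_eq_right (div_nonneg (hG0 α) hm.le)]

lemma kk_glob (h : Sup φ p) (hG : Continuous G) (hG0 : ∀ x, 0 ≤ G x) {a : ℝ} (ha : 0 < a) :
    ∃ K : ℝ → ℝ, Continuous K ∧ ∀ α, a ≤ α → K α = kk φ p G α := by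
  obtain ⟨H, hH, hHe⟩ := glob h hG hG0 ha
  refine ⟨fun α => H α - φ 1 * mn α - p * (G α - mn α), ?_, fun α hα => ?_⟩
  · have := mn_cont
    fun_prop
  · simp only
    rw [hHe α hα]
    rfl

/-- the main inequality at a fixed height -/
lemma core (h : Sup φ p) (hG : Continuous G) (hG0 : ∀ x, 0 ≤ G x) {a R : ℝ} (ha : 0 < a)
    (haR : a ≤ R) {n : ℕ} (hn : 0 < n) {η : ℝ}
    (hH : ∀ k ∈ Finset.range n, ∫ x in a..(a + (k + 1 : ℕ) * ((R - a) / n)), mn x * φ (G x / mn x) ≤
      φ 1 * (∫ x in a..(a + (k + 1 : ℕ) * ((R - a) / n)), mn x) + η)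
    {a1 A : ℝ} (ha1 : a ≤ a1) (haA : a1 ≤ A) (hAR : A ≤ R) :
    (0 ≤ p → (R - A) * ∫ x in a1..A, kk φ p G x ≤ (R - a) * η -
      p * ((∫ x in a..R, (R - x) * G x) - ∫ x in a..R, (R - x) * mn x) +
      p * ((R - a) / n * ∫ x in a..R, mn x)) ∧
    (p ≤ 0 → (R - A) * ∫ x in a1..A, kk φ p G x ≤ (R - a) * η -
      p * ((∫ x in a..R, (R - x) * G x) - ∫ x in a..R, (R - x) * mn x) -
      p * ((R - a) / n * ∫ x in a..R, G x)) := by
  have hn0 : (0 : ℝ) < n := by exact_mod_cast hn
  obtain ⟨H, hHc, hHe⟩ := glob h hG hG0 ha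
  obtain ⟨K, hKc, hKe⟩ := kk_glob h hG hG0 ha
  have hK0 : ∀ x ∈ Icc a R, 0 ≤ K x := fun x hx => by
    rw [hKe x hx.1]
    exact kk_nonneg h hG0 ha hx.1
  have hKH : ∀ x, a ≤ x → K x = H x - φ 1 * mn x - p * (G x - mn x) := fun x hx => by
    rw [hKe x hx, hHe x hx]
    rfl
  obtain ⟨D, hD⟩ : ∃ D : ℝ, D = (R - a) / n := ⟨_, rfl⟩
  have hD0 : 0 ≤ D := by rw [hD]; exact div_nonneg (by linarith) hn0.le
  have hDn : D * n = R - a := by rw [hD]; field_simp
  have gK := (grid hKc haR hK0 hn).1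
  have gG := grid hG haR (fun x _ => hG0 x) hn
  have gm := grid mn_cont haR (fun x _ => mn_nonneg x) hn
  rw [← hD] at gK gG gm hH ⊢
  obtain ⟨P, hP⟩ : ∃ P : ℕ → ℝ, ∀ k, P k = a + (k + 1 : ℕ) * D := ⟨_, fun k => rfl⟩
  simp_rw [← hP] at gK gG gm hH
  have hPa : ∀ k, a ≤ P k := fun k => by
    rw [hP]
    have : (0 : ℝ) ≤ (k + 1 : ℕ) * D := by positivity
    linarith
  -- the sums
  have e1 : ∀ k ∈ Finset.range n, ∫ x in a..(P k), K x ≤
      η - p * (∫ x in a..(P k), G x) + p * ∫ x in a..(P k), mn x := by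
    intro k hk
    have h1 : ∫ x in a..(P k), K x = (∫ x in a..(P k), mn x * φ (G x / mn x)) -
        φ 1 * (∫ x in a..(P k), mn x) - p * ((∫ x in a..(P k), G x) - ∫ x in a..(P k), mn x) := by
      have c1 : Continuous fun x => φ 1 * mn x := continuous_const.mul mn_cont
      have c2 : Continuous fun x => p * (G x - mn x) := continuous_const.mul (hG.sub mn_cont)
      have h2 : ∫ x in a..(P k), K x = ∫ x in a..(P k), (H x - φ 1 * mn x - p * (G x - mn x)) := by
        refine intervalIntegral.integral_congr fun x hx => ?_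
        rw [uIcc_of_le (hPa k)] at hx
        exact hKH x hx.1
      have h3 : ∫ x in a..(P k), mn x * φ (G x / mn x) = ∫ x in a..(P k), H x := by
        refine intervalIntegral.integral_congr fun x hx => ?_
        rw [uIcc_of_le (hPa k)] at hx
        exact (hHe x hx.1).symm
      have c3 : Continuous fun x => H x - φ 1 * mn x := hHc.sub c1
      rw [h2, h3, intervalIntegral.integral_sub (ci c3 _ _) (ci c2 _ _),
        intervalIntegral.integral_sub (ci hHc _ _) (ci c1 _ _),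
        intervalIntegral.integral_const_mul, intervalIntegral.integral_const_mul,
        intervalIntegral.integral_sub (ci hG _ _) (ci mn_cont _ _)]
    have h2 := hH k hk
    rw [h1]
    linarith
  have e2 := Finset.sum_le_sum e1
  rw [Finset.sum_add_distrib, Finset.sum_sub_distrib, ← Finset.mul_sum, ← Finset.mul_sum,
    Finset.sum_const, Finset.card_range, nsmul_eq_mul] at e2
  have e3 := mul_le_mul_of_nonneg_left e2 hD0
  have e4 : D * (n * η - p * (∑ k ∈ Finset.range n, ∫ x in a..(P k), G x) +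
      p * ∑ k ∈ Finset.range n, ∫ x in a..(P k), mn x) = (R - a) * η -
      p * (D * ∑ k ∈ Finset.range n, ∫ x in a..(P k), G x) +
      p * (D * ∑ k ∈ Finset.range n, ∫ x in a..(P k), mn x) := by
    rw [← hDn]; ring
  rw [e4] at e3
  have e5 : (R - A) * ∫ x in a1..A, kk φ p G x ≤ ∫ x in a..R, (R - x) * K x := by
    have c1 : Continuous fun x => (R - x) * K x := (continuous_const.sub continuous_id).mul hKc
    have h1 : ∫ x in a..R, (R - x) * K x = (∫ x in a..a1, (R - x) * K x) +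
        (∫ x in a1..A, (R - x) * K x) + ∫ x in A..R, (R - x) * K x := by
      rw [intervalIntegral.integral_add_adjacent_intervals (ci c1 _ _) (ci c1 _ _),
        intervalIntegral.integral_add_adjacent_intervals (ci c1 _ _) (ci c1 _ _)]
    have h2 : ∀ x ∈ Icc a R, 0 ≤ (R - x) * K x := fun x hx =>
      mul_nonneg (by linarith [hx.2]) (hK0 x hx)
    have h3 : 0 ≤ ∫ x in a..a1, (R - x) * K x :=
      intervalIntegral.integral_nonneg ha1 fun x hx => h2 x ⟨hx.1, by linarith [hx.2]⟩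
    have h4 : 0 ≤ ∫ x in A..R, (R - x) * K x :=
      intervalIntegral.integral_nonneg hAR fun x hx => h2 x ⟨by linarith [hx.1], hx.2⟩
    have h5 : (R - A) * ∫ x in a1..A, kk φ p G x ≤ ∫ x in a1..A, (R - x) * K x := by
      have h6 : ∫ x in a1..A, kk φ p G x = ∫ x in a1..A, K x := by
        refine intervalIntegral.integral_congr fun x hx => ?_
        rw [uIcc_of_le haA] at hx
        exact (hKe x (by linarith [hx.1])).symm
      rw [h6, ← intervalIntegral.integral_const_mul]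
      refine intervalIntegral.integral_mono_on haA (ci (continuous_const.mul hKc) _ _) (ci c1 _ _)
        fun x hx => ?_
      apply mul_le_mul_of_nonneg_right (by linarith [hx.2])
      exact hK0 x ⟨by linarith [hx.1], by linarith [hx.2]⟩
    linarith
  constructor
  · intro hp
    have g1 := mul_le_mul_of_nonneg_left gG.1 hp
    have g2 := mul_le_mul_of_nonneg_left gm.2 hp
    nlinarith
  · intro hp
    have hp' : 0 ≤ -p := by linarith
    have g1 := mul_le_mul_of_nonneg_left gG.2 hp'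
    have g2 := mul_le_mul_of_nonneg_left gm.1 hp'
    nlinarith

lemma int_mn {a R : ℝ} (haR : a ≤ R) : ∫ x in a..R, mn x ≤ R - a := by
  calc ∫ x in a..R, mn x ≤ ∫ x in a..R, (1 : ℝ) :=
        intervalIntegral.integral_mono_on haR (ci mn_cont _ _) (by simp) fun x _ => mn_le x
    _ = R - a := by simp

variable {l : Filter ℝ}

/-- positive slope, quantitative -/
theorem core_pos (RH : RiemannHypothesis) (hl : l ≤ atTop) (h : Sup φ p) (hp : 0 < p) {R η : ℝ}
    (hR : 1 ≤ R) (hη : 0 ≤ η)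
    (hq : ∀ a B : ℝ, 0 < a → a < B → B ≤ R → ∀ ε : ℝ, 0 < ε → ∀ᶠ T in l,
      ∫ x in a..B, mn x * φ (Fr T x / mn x) ≤ φ 1 * (∫ x in a..B, mn x) + η + ε)
    {a A : ℝ} (ha : 0 < a) (haA : a < A) (hAR : A < R) {ε : ℝ} (hε : 0 < ε) :
    ∀ᶠ T in l, ∫ x in a..A, kk φ p (Fr T) x ≤ (R * η + p / 6) / (R - A) + ε := by
  have hR0 : 0 < R := by linarith
  have hRA : 0 < R - A := by linarith
  obtain ⟨e, he⟩ : ∃ e : ℝ, e = ε * (R - A) / 4 := ⟨_, rfl⟩
  have he0 : 0 < e := by rw [he]; positivity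
  obtain ⟨a0, ha0, hlow⟩ := low RH hR (ε := e / p) (by positivity)
  obtain ⟨b, hb⟩ : ∃ b : ℝ, b = min a a0 := ⟨_, rfl⟩
  have hb0 : 0 < b := by rw [hb]; exact lt_min ha ha0
  have hba : b ≤ a := by rw [hb]; exact min_le_left _ _
  have hba0 : b ≤ a0 := by rw [hb]; exact min_le_right _ _
  have hbR : b < R := by linarith
  obtain ⟨n, hn⟩ := exists_nat_gt (p * R * R / e)
  have hn0 : (0 : ℝ) < n := lt_of_le_of_lt (by positivity) hn
  have hn1 : 0 < n := by exact_mod_cast hn0
  have hev : ∀ᶠ T in l, ∀ k ∈ Finset.range n,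
      ∫ x in b..(b + (k + 1 : ℕ) * ((R - b) / n)), mn x * φ (Fr T x / mn x) ≤
      φ 1 * (∫ x in b..(b + (k + 1 : ℕ) * ((R - b) / n)), mn x) + (η + e / R) := by
    rw [Filter.eventually_all_finset]
    intro k hk
    have hk' := Finset.mem_range.1 hk
    have h1 : 0 < (R - b) / n := div_pos (by linarith) hn0
    have h2 : ((k + 1 : ℕ) : ℝ) ≤ n := by exact_mod_cast hk'
    have h3 : ((k + 1 : ℕ) : ℝ) * ((R - b) / n) ≤ R - b := by
      calc ((k + 1 : ℕ) : ℝ) * ((R - b) / n) ≤ n * ((R - b) / n) := by gcongr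
        _ = R - b := by field_simp
    have h4 : (0 : ℝ) < (k + 1 : ℕ) * ((R - b) / n) := by positivity
    filter_upwards [hq b (b + (k + 1 : ℕ) * ((R - b) / n)) hb0 (by linarith) (by linarith) (e / R)
      (by positivity)] with T hT
    linarith
  filter_upwards [hev, hl (hlow b hb0 hba0), hl (eventually_ge_atTop 10)] with T h1 h2 hT
  have h3 := (core h (Fr_cont T) (Fr_nonneg hT) hb0 hbR.le hn1 h1 hba haA.le hAR.le).1 hp.le
  have h4 := int_mn hbR.le
  have h5 : p * ((R - b) / n * ∫ x in b..R, mn x) ≤ e := by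
    have h6 : (R - b) / n * ∫ x in b..R, mn x ≤ R / n * R := by
      apply mul_le_mul _ (by linarith) _ (by positivity)
      · gcongr; linarith
      · exact intervalIntegral.integral_nonneg hbR.le fun x _ => mn_nonneg x
    calc _ ≤ p * (R / n * R) := by gcongr
      _ = p * R * R / n := by ring
      _ ≤ e := by
          rw [div_lt_iff₀ he0] at hn
          rw [div_le_iff₀ hn0]
          linarith
  have h6 : (R - b) * (η + e / R) ≤ R * η + e := by
    calc (R - b) * (η + e / R) ≤ R * (η + e / R) := by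
          apply mul_le_mul_of_nonneg_right (by linarith) (by positivity)
      _ = R * η + e := by field_simp
  have h7 : -(p * ((∫ x in b..R, (R - x) * Fr T x) - ∫ x in b..R, (R - x) * mn x)) ≤ p / 6 + e := by
    have h8 := mul_le_mul_of_nonneg_left h2 hp.le
    have h9 : p * (-(1 / 6) - e / p) = -(p / 6) - e := by
      field_simp
    rw [h9] at h8
    linarith
  have h8 : (R - A) * ∫ x in a..A, kk φ p (Fr T) x ≤ (R - A) * ((R * η + p / 6) / (R - A) + ε) := by
    have h9 : (R - A) * ((R * η + p / 6) / (R - A) + ε) = R * η + p / 6 + 4 * e := by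
      rw [mul_add, mul_div_cancel₀ _ hRA.ne', he]
      ring
    rw [h9]
    linarith
  exact le_of_mul_le_mul_left h8 hRA

/-- negative slope -/
theorem core_neg (RH : RiemannHypothesis) (hl : l ≤ atTop) (h : Sup φ p) (hp : p < 0)
    (hrep : Rep l)
    (hq : ∀ a B : ℝ, 0 < a → a < B → ∀ ε : ℝ, 0 < ε → ∀ᶠ T in l,
      ∫ x in a..B, mn x * φ (Fr T x / mn x) ≤ φ 1 * (∫ x in a..B, mn x) + ε)
    {a A : ℝ} (ha : 0 < a) (haA : a < A) {ε : ℝ} (hε : 0 < ε) :
    ∀ᶠ T in l, ∫ x in a..A, kk φ p (Fr T) x ≤ ε := by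
  obtain ⟨s, hs⟩ : ∃ s : ℝ, s = -p := ⟨_, rfl⟩
  have hs0 : 0 < s := by rw [hs]; linarith
  obtain ⟨C, hC, hhigh⟩ := high RH hl hrep (ε := ε / (8 * s)) (by positivity)
  obtain ⟨R, hR1, hR, ⟨B, hB0, hB⟩, a0, ha0, hup⟩ :=
    hhigh (2 * A + 4 * (s * C + 2) / ε)
  have hA0 : 0 < A := by linarith
  have hpos : 0 < 4 * (s * C + 2) / ε := by positivity
  have hRA : 0 < R - A := by linarith
  have hR0 : 0 < R := by linarith
  obtain ⟨b, hb⟩ : ∃ b : ℝ, b = min a a0 := ⟨_, rfl⟩
  have hb0 : 0 < b := by rw [hb]; exact lt_min ha ha0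
  have hba : b ≤ a := by rw [hb]; exact min_le_left _ _
  have hba0 : b ≤ a0 := by rw [hb]; exact min_le_right _ _
  have hbR : b < R := by linarith
  obtain ⟨n, hn⟩ := exists_nat_gt (s * R * B)
  have hn0 : (0 : ℝ) < n := lt_of_le_of_lt (by positivity) hn
  have hn1 : 0 < n := by exact_mod_cast hn0
  have hev : ∀ᶠ T in l, ∀ k ∈ Finset.range n,
      ∫ x in b..(b + (k + 1 : ℕ) * ((R - b) / n)), mn x * φ (Fr T x / mn x) ≤
      φ 1 * (∫ x in b..(b + (k + 1 : ℕ) * ((R - b) / n)), mn x) + 1 / R := by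
    rw [Filter.eventually_all_finset]
    intro k hk
    have h1 : 0 < (R - b) / n := div_pos (by linarith) hn0
    have h4 : (0 : ℝ) < (k + 1 : ℕ) * ((R - b) / n) := by positivity
    exact hq b (b + (k + 1 : ℕ) * ((R - b) / n)) hb0 (by linarith) (1 / R) (by positivity)
  filter_upwards [hev, hup b hb0 hba0, hB b hb0 hbR.le, hl (eventually_ge_atTop 10)]
    with T h1 h2 h2' hT
  have h3 := (core h (Fr_cont T) (Fr_nonneg hT) hb0 hbR.le hn1 h1 hba haA.le (by linarith)).2 hp.le
  have h5 : -(p * ((R - b) / n * ∫ x in b..R, Fr T x)) ≤ 1 := by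
    have h6 : (R - b) / n * ∫ x in b..R, Fr T x ≤ R / n * B := by
      apply mul_le_mul _ h2' _ (by positivity)
      · gcongr; linarith
      · exact intervalIntegral.integral_nonneg hbR.le fun x _ => Fr_nonneg hT x
    calc -(p * ((R - b) / n * ∫ x in b..R, Fr T x)) = s * ((R - b) / n * ∫ x in b..R, Fr T x) := by
          rw [hs]; ring
      _ ≤ s * (R / n * B) := by gcongr
      _ = s * R * B / n := by ring
      _ ≤ 1 := by
          rw [div_le_one hn0]
          exact hn.le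
  have h6 : (R - b) * (1 / R) ≤ 1 := by
    rw [mul_one_div, div_le_one hR0]
    linarith
  have h7 : -(p * ((∫ x in b..R, (R - x) * Fr T x) - ∫ x in b..R, (R - x) * mn x)) ≤
      ε * R / 8 + s * C := by
    have h8 := mul_le_mul_of_nonneg_left h2 hs0.le
    have h9 : s * (ε / (8 * s) * R + C) = ε * R / 8 + s * C := by
      field_simp
    rw [h9, hs] at h8
    rw [hs]
    linarith
  have h10 : s * C + 2 ≤ ε * (R - A) / 4 := by
    have h11 : 4 * (s * C + 2) / ε ≤ R - A := by linarith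
    rw [div_le_iff₀ hε] at h11
    linarith
  have h12 : ε * R / 8 ≤ ε * (R - A) / 4 := by
    have : R ≤ 2 * (R - A) := by linarith
    nlinarith
  have h8 : (R - A) * ∫ x in a..A, kk φ p (Fr T) x ≤ (R - A) * ε := by
    linarith [mul_pos hRA hε]
  exact le_of_mul_le_mul_left h8 hRA

end Pool.Agent.Y749.SF
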