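import Pool.Agent.Y749.SF.D

/-! # One-sided bounds for convex moments of the form factor: equivalences -/

set_option autoImplicit false

open MeasureTheory Set Filter Topology

namespace Pool.Agent.Y749.SF

open Pool.Agent.Y749.Rig
open Pool.Agent.Y744 (Aa AG gp)

variable {φ : ℝ → ℝ} {p : ℝ} {G : ℝ → ℝ} {l : Filter ℝ}

/-- the upper bound for the convex moment -/
def CU (l : Filter ℝ) (φ : ℝ → ℝ) : Prop := ∀ a A : ℝ, 0 < a → a < A → ∀ ε : ℝ, 0 < ε → ∀ᶠ T in l,
  ∫ x in a..A, mn x * φ (Fr T x / mn x) ≤ φ 1 * (∫ x in a..A, mn x) + ε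

/-- convergence in the mean -/
def MC (l : Filter ℝ) (φ : ℝ → ℝ) : Prop := ∀ a A : ℝ, 0 < a → a < A → ∀ ε : ℝ, 0 < ε → ∀ᶠ T in l,
  ∫ x in a..A, |Fr T x - mn x| ≤ ε ∧
  ∫ x in a..A, |mn x * φ (Fr T x / mn x) - φ 1 * mn x| ≤ ε

/-- the integral of the Bregman density controls the distance in the mean -/
lemma l1_bound (h : Sup φ p) {δ : ℝ} (hδ : 0 < δ) (hδ1 : δ < 1) : ∃ c : ℝ, 0 < c ∧
    ∀ G : ℝ → ℝ, Continuous G → (∀ x, 0 ≤ G x) → ∀ a A : ℝ, 0 < a → a ≤ A →
    c * (∫ x in a..A, |G x - mn x|) ≤ c * δ * (A - a) + ∫ x in a..A, kk φ p G x := by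
  obtain ⟨c, hc, hcb⟩ := conv_low h.conv h.line hδ hδ1
  refine ⟨c, hc, fun G hG hG0 a A ha haA => ?_⟩
  obtain ⟨K, hKc, hKe⟩ := kk_glob h hG hG0 ha
  have e1 : ∫ x in a..A, kk φ p G x = ∫ x in a..A, K x := by
    refine intervalIntegral.integral_congr fun x hx => ?_
    rw [uIcc_of_le haA] at hx
    exact (hKe x hx.1).symm
  have e2 : c * δ * (A - a) = ∫ x in a..A, c * δ := by simp; ring
  rw [e1, e2, ← intervalIntegral.integral_const_mul,
    ← intervalIntegral.integral_add (by simp) (ci hKc _ _)]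
  have c1 : Continuous fun x => c * |G x - mn x| :=
    continuous_const.mul (hG.sub mn_cont).abs
  have c2 : Continuous fun x => c * δ + K x := continuous_const.add hKc
  refine intervalIntegral.integral_mono_on haA (ci c1 _ _) (ci c2 _ _) fun x hx => ?_
  have hm := mn_pos ha hx.1
  have hm1 := mn_le x
  have h1 := hcb (G x / mn x) (div_nonneg (hG0 x) hm.le)
  have h2 := mul_le_mul_of_nonneg_left h1 hm.le
  have h3 : mn x * (c * |G x / mn x - 1|) = c * |G x - mn x| := by
    have : G x / mn x - 1 = (G x - mn x) / mn x := by field_simp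
    rw [this, abs_div, abs_of_pos hm]
    field_simp
  have h4 : mn x * (c * δ + (φ (G x / mn x) - φ 1 - p * (G x / mn x - 1))) =
      c * δ * mn x + kk φ p G x := by
    unfold kk
    field_simp
  rw [h3, h4] at h2
  rw [hKe x hx.1]
  have h5 : c * δ * mn x ≤ c * δ := by
    have : 0 < c * δ := by positivity
    nlinarith
  linarith

lemma abs_cont (h : Sup φ p) (hG : Continuous G) (hG0 : ∀ x, 0 ≤ G x) {a : ℝ} (ha : 0 < a) :
    ∃ H : ℝ → ℝ, Continuous H ∧ ∀ α, a ≤ α → H α = |mn α * φ (G α / mn α) - φ 1 * mn α| := by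
  obtain ⟨H, hH, hHe⟩ := glob h hG hG0 ha
  refine ⟨fun α => |H α - φ 1 * mn α|, ?_, fun α hα => ?_⟩
  · have := mn_cont
    fun_prop
  · simp only
    rw [hHe α hα]

/-- from the Bregman integrals to the convergence in the mean -/
theorem mc_of (hl : l ≤ atTop) (h : Sup φ p) (hk : ∀ a A : ℝ, 0 < a → a < A → ∀ ε : ℝ, 0 < ε →
    ∀ᶠ T in l, ∫ x in a..A, kk φ p (Fr T) x ≤ ε) : MC l φ := by
  intro a A ha haA ε hε
  have hAa : 0 < A - a := by linarith
  obtain ⟨e, he⟩ : ∃ e : ℝ, e = ε / (2 * (1 + |p|)) := ⟨_, rfl⟩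
  have he0 : 0 < e := by rw [he]; positivity
  have he1 : (1 + |p|) * e = ε / 2 := by rw [he]; field_simp
  obtain ⟨δ, hδ⟩ : ∃ δ : ℝ, δ = min (1 / 2) (e / (2 * (A - a))) := ⟨_, rfl⟩
  have hδ0 : 0 < δ := by rw [hδ]; exact lt_min (by norm_num) (by positivity)
  have hδ1 : δ < 1 := by
    have : δ ≤ 1 / 2 := by rw [hδ]; exact min_le_left _ _
    linarith
  have hδ2 : δ * (A - a) ≤ e / 2 := by
    have : δ ≤ e / (2 * (A - a)) := by rw [hδ]; exact min_le_right _ _
    calc δ * (A - a) ≤ e / (2 * (A - a)) * (A - a) := by gcongr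
      _ = e / 2 := by field_simp
  obtain ⟨c, hc, hcb⟩ := l1_bound h hδ0 hδ1
  filter_upwards [hk a A ha haA (min (c * (e / 2)) e) (lt_min (by positivity) he0),
    hl (eventually_ge_atTop 10)] with T h1 hT
  have hF0 := Fr_nonneg hT
  have hFc := Fr_cont T
  have h2 := hcb (Fr T) hFc hF0 a A ha haA.le
  have h3 : c * ∫ x in a..A, |Fr T x - mn x| ≤ c * e := by
    calc c * ∫ x in a..A, |Fr T x - mn x| ≤ c * δ * (A - a) + c * (e / 2) :=
          h2.trans (by linarith [h1.trans (min_le_left _ _)])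
      _ ≤ c * (e / 2) + c * (e / 2) := by
          have : c * (δ * (A - a)) ≤ c * (e / 2) := by gcongr
          linarith
      _ = c * e := by ring
  have h4 : ∫ x in a..A, |Fr T x - mn x| ≤ e := le_of_mul_le_mul_left h3 hc
  have hee : e ≤ ε := by
    have : 0 ≤ |p| * e := by positivity
    linarith
  refine ⟨h4.trans hee, ?_⟩
  obtain ⟨K, hKc, hKe⟩ := kk_glob h hFc hF0 ha
  obtain ⟨H, hHc, hHe⟩ := abs_cont h hFc hF0 ha
  have e1 : ∫ x in a..A, |mn x * φ (Fr T x / mn x) - φ 1 * mn x| = ∫ x in a..A, H x := by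
    refine intervalIntegral.integral_congr fun x hx => ?_
    rw [uIcc_of_le haA.le] at hx
    exact (hHe x hx.1).symm
  have e2 : ∫ x in a..A, kk φ p (Fr T) x = ∫ x in a..A, K x := by
    refine intervalIntegral.integral_congr fun x hx => ?_
    rw [uIcc_of_le haA.le] at hx
    exact (hKe x hx.1).symm
  have c1 : Continuous fun x => |p| * |Fr T x - mn x| :=
    continuous_const.mul (hFc.sub mn_cont).abs
  have h5 : ∫ x in a..A, H x ≤ (∫ x in a..A, K x) + |p| * ∫ x in a..A, |Fr T x - mn x| := by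
    rw [← intervalIntegral.integral_const_mul,
      ← intervalIntegral.integral_add (ci hKc _ _) (ci c1 _ _)]
    have c2 : Continuous fun x => K x + |p| * |Fr T x - mn x| := hKc.add c1
    refine intervalIntegral.integral_mono_on haA.le (ci hHc _ _) (ci c2 _ _) fun x hx => ?_
    rw [hHe x hx.1, hKe x hx.1]
    have hk0 := kk_nonneg h hF0 ha hx.1
    have h6 : mn x * φ (Fr T x / mn x) - φ 1 * mn x = kk φ p (Fr T) x + p * (Fr T x - mn x) := by
      unfold kk; ring
    rw [h6]
    refine (abs_add_le _ _).trans ?_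
    rw [abs_of_nonneg hk0, abs_mul]
  rw [e1]
  rw [← e2] at h5
  have h6 := h1.trans (min_le_right _ _)
  have h7 : |p| * ∫ x in a..A, |Fr T x - mn x| ≤ |p| * e := by gcongr
  linarith

/-- the converse -/
theorem cu_of (hl : l ≤ atTop) (h : Sup φ p) (hm : MC l φ) : CU l φ := by
  intro a A ha haA ε hε
  filter_upwards [hm a A ha haA ε hε, hl (eventually_ge_atTop 10)] with T h1 hT
  have hF0 := Fr_nonneg hT
  have hFc := Fr_cont T
  obtain ⟨K, hKc, hKe⟩ := glob h hFc hF0 ha
  obtain ⟨H, hHc, hHe⟩ := abs_cont h hFc hF0 ha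
  have e1 : ∫ x in a..A, |mn x * φ (Fr T x / mn x) - φ 1 * mn x| = ∫ x in a..A, H x := by
    refine intervalIntegral.integral_congr fun x hx => ?_
    rw [uIcc_of_le haA.le] at hx
    exact (hHe x hx.1).symm
  have e2 : ∫ x in a..A, mn x * φ (Fr T x / mn x) = ∫ x in a..A, K x := by
    refine intervalIntegral.integral_congr fun x hx => ?_
    rw [uIcc_of_le haA.le] at hx
    exact (hKe x hx.1).symm
  have h2 := h1.2
  rw [e1] at h2
  rw [e2, ← intervalIntegral.integral_const_mul]
  have c1 : Continuous fun x => φ 1 * mn x := continuous_const.mul mn_cont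
  have c2 : Continuous fun x => φ 1 * mn x + H x := c1.add hHc
  have h3 : ∫ x in a..A, K x ≤ (∫ x in a..A, φ 1 * mn x) + ∫ x in a..A, H x := by
    rw [← intervalIntegral.integral_add (ci c1 _ _) (ci hHc _ _)]
    refine intervalIntegral.integral_mono_on haA.le (ci hKc _ _) (ci c2 _ _) fun x hx => ?_
    rw [hHe x hx.1, hKe x hx.1]
    have := le_abs_self (mn x * φ (Fr T x / mn x) - φ 1 * mn x)
    linarith
  linarith

/-- the means converge -/
theorem ml_of (RH : RiemannHypothesis) (hl : l ≤ atTop) (hm : MC l φ) : MeanLim l := by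
  refine mean_lim RH hl fun R a b ha hab _ ε hε => ?_
  filter_upwards [hm a b ha hab ε hε] with T h1
  have hFc := Fr_cont T
  have c1 : Continuous fun x => |Fr T x - mn x| := (hFc.sub mn_cont).abs
  have c2 : Continuous fun x => mn x + |Fr T x - mn x| := mn_cont.add c1
  have h3 : ∫ x in a..b, Fr T x ≤ (∫ x in a..b, mn x) + ∫ x in a..b, |Fr T x - mn x| := by
    rw [← intervalIntegral.integral_add (ci mn_cont _ _) (ci c1 _ _)]
    refine intervalIntegral.integral_mono_on hab.le (ci hFc _ _) (ci c2 _ _) fun x _ => ?_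
    have := le_abs_self (Fr T x - mn x)
    linarith
  linarith [h1.1]

theorem rep_of (RH : RiemannHypothesis) (hl : l ≤ atTop) (hm : MC l φ) : Rep l := by
  intro ε hε
  have hpi := Real.pi_pos
  have hlim := Aa_lim hl (weak_mean RH hl (ml_of RH hl hm))
  obtain ⟨c, hc⟩ : ∃ c : ℝ, c = ε / (4 * Real.pi ^ 2) := ⟨_, rfl⟩
  have hc0 : 0 < c := by rw [hc]; positivity
  refine ⟨min 1 c, lt_min one_pos hc0, fun v hv hv0 => ?_⟩
  have h1 : v ≤ 1 := hv0.trans (min_le_left _ _)
  have h2 : v ≤ c := hv0.trans (min_le_right _ _)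
  have h3 : AG v < 1 + ε * v := by
    unfold AG
    rw [if_neg (by linarith)]
    have h4 := Pool.Agent.Y744.gp_cube hv.le
    have h5 : Real.pi ^ 2 / 9 * v ^ 3 ≤ ε * v / 4 := by
      have h6 : v ^ 2 ≤ c := by nlinarith
      have h7 : Real.pi ^ 2 * c = ε / 4 := by rw [hc]; field_simp
      calc Real.pi ^ 2 / 9 * v ^ 3 = Real.pi ^ 2 * v ^ 2 * v / 9 := by ring
        _ ≤ Real.pi ^ 2 * c * v / 9 := by gcongr
        _ = ε * v / 36 := by rw [h7]; ring
        _ ≤ ε * v / 4 := by
            have : 0 < ε * v := by positivity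
            linarith
    have : 0 < ε * v := by positivity
    linarith
  exact (hlim v).eventually (ge_mem_nhds h3)

theorem iff_pos (RH : RiemannHypothesis) (hl : l ≤ atTop) (h : Sup φ p) (hp : 0 < p) :
    CU l φ ↔ MC l φ := by
  constructor
  · intro hc
    refine mc_of hl h fun a A ha haA ε hε => ?_
    have hA : 0 < A := by linarith
    obtain ⟨R, hR⟩ : ∃ R : ℝ, R = A + 1 + p / ε := ⟨_, rfl⟩
    have hpe : 0 < p / ε := by positivity
    have hR1 : 1 ≤ R := by linarith
    filter_upwards [core_pos RH hl h hp (R := R) (η := 0) hR1 le_rfl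
      (fun a B h1 h2 _ ε hε => (hc a B h1 h2 ε hε).mono fun T hT => by rw [add_zero]; exact hT)
      ha haA (by linarith) (ε := ε / 2) (by positivity)] with T hT
    refine hT.trans ?_
    have h1 : (R * 0 + p / 6) / (R - A) ≤ ε / 2 := by
      rw [mul_zero, zero_add, div_le_iff₀ (by linarith)]
      have h2 : R - A = 1 + p / ε := by rw [hR]; ring
      have h3 : ε / 2 * (p / ε) = p / 2 := by field_simp
      rw [h2, mul_add, h3]
      linarith
    linarith
  · exact cu_of hl h

theorem iff_neg (RH : RiemannHypothesis) (hl : l ≤ atTop) (h : Sup φ p) (hp : p < 0) :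
    (CU l φ ∧ Rep l) ↔ MC l φ := by
  constructor
  · rintro ⟨hc, hr⟩
    exact mc_of hl h fun a A ha haA ε hε => core_neg RH hl h hp hr hc ha haA hε
  · intro hm
    exact ⟨cu_of hl h hm, rep_of RH hl hm⟩

/-- powers -/
lemma sup_pow {q : ℝ} (hq : 1 < q) : Sup (fun t => t ^ q) q where
  conv := (strictConvexOn_rpow hq).convexOn
  cont := (Real.continuous_rpow_const (by linarith)).continuousOn
  line := by
    intro t ht h1
    have h2 := one_add_mul_self_lt_rpow_one_add (s := t - 1) (by linarith) (sub_ne_zero.2 h1) hq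
    simp only [Real.one_rpow]
    have e : 1 + (t - 1) = t := by ring
    rw [e] at h2
    exact h2

lemma pow_sub_le {t q : ℝ} (ht : 0 ≤ t) (hq : 1 ≤ q) : |t - 1| ^ q ≤ |t ^ q - 1| := by
  have hq0 : 0 < q := by linarith
  rcases le_total 1 t with h | h
  · have h1 : 0 ≤ t - 1 := by linarith
    have h2 := Real.add_rpow_le_rpow_add h1 zero_le_one hq
    rw [Real.one_rpow, sub_add_cancel] at h2
    have h3 : 0 ≤ t ^ q - 1 := by
      have := Real.rpow_nonneg h1 q
      linarith
    rw [abs_of_nonneg h1, abs_of_nonneg h3]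
    linarith
  · have h1 : 0 ≤ 1 - t := by linarith
    have h2 := Real.add_rpow_le_rpow_add h1 ht hq
    rw [sub_add_cancel, Real.one_rpow] at h2
    have h3 : t ^ q - 1 ≤ 0 := by
      have := Real.rpow_nonneg h1 q
      linarith
    rw [abs_of_nonpos (by linarith : t - 1 ≤ 0), abs_of_nonpos h3, neg_sub, neg_sub]
    linarith

/-- a bound for the powers by the power of the distance to `1` -/
lemma pow_up {q : ℝ} (hq : 1 ≤ q) {δ : ℝ} (hδ : 0 < δ) : ∃ C : ℝ, 0 ≤ C ∧ ∀ t : ℝ, 0 ≤ t →
    t ^ q ≤ 1 + δ + C * |t - 1| ^ q := by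
  have hq0 : 0 < q := by linarith
  obtain ⟨η, hη, hη2⟩ : ∃ η : ℝ, 0 < η ∧ (1 + η) ^ q ≤ 1 + δ := by
    refine ⟨(1 + δ) ^ (1 / q) - 1, ?_, ?_⟩
    · have := Real.one_lt_rpow (show 1 < 1 + δ by linarith) (show 0 < 1 / q by positivity)
      linarith
    · rw [add_sub_cancel, ← Real.rpow_mul (by linarith), one_div_mul_cancel hq0.ne', Real.rpow_one]
  refine ⟨(1 + 1 / η) ^ q, by positivity, fun t ht => ?_⟩
  rcases le_or_gt t (1 + η) with h | h
  · have h1 : t ^ q ≤ (1 + η) ^ q := Real.rpow_le_rpow ht h hq0.le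
    have h2 : 0 ≤ (1 + 1 / η) ^ q * |t - 1| ^ q := by positivity
    linarith
  · have h1 : 0 < t - 1 := by linarith
    have h2 : t ≤ (1 + 1 / η) * (t - 1) := by
      have h3 : 1 ≤ 1 / η * (t - 1) := by
        rw [one_div, ← div_eq_inv_mul, one_le_div hη]
        linarith
      linarith
    rw [abs_of_pos h1, ← Real.mul_rpow (by positivity) h1.le]
    have := Real.rpow_le_rpow ht h2 hq0.le
    linarith

/-- the moments -/
theorem iff_pow (RH : RiemannHypothesis) (hl : l ≤ atTop) {q : ℝ} (hq : 1 < q) :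
    CU l (fun t => t ^ q) ↔ ∀ a A : ℝ, 0 < a → a < A → ∀ ε : ℝ, 0 < ε → ∀ᶠ T in l,
      ∫ x in a..A, |Fr T x - mn x| ^ q ≤ ε := by
  have hq0 : 0 < q := by linarith
  have hs := sup_pow hq
  have cpow : ∀ {g : ℝ → ℝ}, Continuous g → Continuous fun x => |g x| ^ q := fun hg =>
    (Real.continuous_rpow_const hq0.le).comp hg.abs
  constructor
  · intro h a A ha haA ε hε
    have hm := (iff_pos RH hl hs (by linarith)).1 h
    filter_upwards [hm a A ha haA ε hε, hl (eventually_ge_atTop 10)] with T h1 hT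
    have hF0 := Fr_nonneg hT
    have hFc := Fr_cont T
    obtain ⟨H, hHc, hHe⟩ := abs_cont hs hFc hF0 ha
    have e1 : ∫ x in a..A, |mn x * (Fr T x / mn x) ^ q - 1 ^ q * mn x| = ∫ x in a..A, H x := by
      refine intervalIntegral.integral_congr fun x hx => ?_
      rw [uIcc_of_le haA.le] at hx
      exact (hHe x hx.1).symm
    have h2 := h1.2

    rw [e1] at h2
    refine le_trans ?_ h2
    refine intervalIntegral.integral_mono_on haA.le (ci (cpow (hFc.sub mn_cont)) _ _)
      (ci hHc _ _) fun x hx => ?_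
    rw [hHe x hx.1]
    have hmp := mn_pos ha hx.1
    have ht : 0 ≤ Fr T x / mn x := div_nonneg (hF0 x) hmp.le
    have h3 := pow_sub_le ht hq.le
    simp only [Real.one_rpow, one_mul]
    have h4 : |Fr T x - mn x| ^ q = mn x ^ q * |Fr T x / mn x - 1| ^ q := by
      rw [← Real.mul_rpow hmp.le (abs_nonneg _)]
      congr 1
      have : Fr T x / mn x - 1 = (Fr T x - mn x) / mn x := by field_simp
      rw [this, abs_div, abs_of_pos hmp]
      field_simp
    have h5 : |mn x * (Fr T x / mn x) ^ q - mn x| = mn x * |(Fr T x / mn x) ^ q - 1| := by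
      rw [show mn x * (Fr T x / mn x) ^ q - mn x = mn x * ((Fr T x / mn x) ^ q - 1) by ring,
        abs_mul, abs_of_pos hmp]
    have h6 : mn x ^ q ≤ mn x := by
      have := Real.rpow_le_rpow_of_exponent_ge hmp (mn_le x) hq.le
      rwa [Real.rpow_one] at this
    rw [h4, h5]
    apply mul_le_mul h6 h3 (by positivity) hmp.le
  · intro h a A ha haA ε hε
    obtain ⟨δ, hδ⟩ : ∃ δ : ℝ, δ = ε / (2 * (A - a)) := ⟨_, rfl⟩
    have hAa : 0 < A - a := by linarith
    have hδ0 : 0 < δ := by rw [hδ]; positivity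
    obtain ⟨C, hC, hCb⟩ := pow_up hq.le hδ0
    obtain ⟨b, hb⟩ : ∃ b : ℝ, b = min a 1 := ⟨_, rfl⟩
    have hb0 : 0 < b := by rw [hb]; exact lt_min ha one_pos
    obtain ⟨C', hC'⟩ : ∃ C' : ℝ, C' = C * b ^ (1 - q) + 1 := ⟨_, rfl⟩
    have hC'0 : 0 < C' := by rw [hC']; positivity
    filter_upwards [h a A ha haA (ε / (2 * C')) (by positivity), hl (eventually_ge_atTop 10)]
      with T h1 hT
    have hF0 := Fr_nonneg hT
    have hFc := Fr_cont T
    obtain ⟨K, hKc, hKe⟩ := glob hs hFc hF0 ha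
    have e2 : ∫ x in a..A, mn x * (Fr T x / mn x) ^ q = ∫ x in a..A, K x := by
      refine intervalIntegral.integral_congr fun x hx => ?_
      rw [uIcc_of_le haA.le] at hx
      exact (hKe x hx.1).symm
    show ∫ x in a..A, mn x * (Fr T x / mn x) ^ q ≤ 1 ^ q * (∫ x in a..A, mn x) + ε
    rw [e2, Real.one_rpow, one_mul]
    have c1 : Continuous fun x => C' * |Fr T x - mn x| ^ q :=
      continuous_const.mul (cpow (hFc.sub mn_cont))
    have c0 : Continuous fun x => mn x + δ := mn_cont.add continuous_const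
    have c2 : Continuous fun x => mn x + δ + C' * |Fr T x - mn x| ^ q := c0.add c1
    have h3 : ∫ x in a..A, K x ≤ ((∫ x in a..A, mn x) + ∫ x in a..A, δ) +
        C' * ∫ x in a..A, |Fr T x - mn x| ^ q := by
      rw [← intervalIntegral.integral_const_mul,
        ← intervalIntegral.integral_add (ci mn_cont _ _) (by simp),
        ← intervalIntegral.integral_add (ci c0 _ _) (ci c1 _ _)]
      refine intervalIntegral.integral_mono_on haA.le (ci hKc _ _) (ci c2 _ _) fun x hx => ?_
      rw [hKe x hx.1]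
      have hmp := mn_pos ha hx.1
      have hbm : b ≤ mn x := by
        unfold mn
        rw [hb]
        refine min_le_min ?_ le_rfl
        rw [abs_of_nonneg (by linarith [hx.1])]
        exact hx.1
      have ht : 0 ≤ Fr T x / mn x := div_nonneg (hF0 x) hmp.le
      have h4 := mul_le_mul_of_nonneg_left (hCb _ ht) hmp.le
      have h5 : |Fr T x / mn x - 1| ^ q = |Fr T x - mn x| ^ q / mn x ^ q := by
        rw [← Real.div_rpow (abs_nonneg _) hmp.le]
        congr 1
        have : Fr T x / mn x - 1 = (Fr T x - mn x) / mn x := by field_simp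
        rw [this, abs_div, abs_of_pos hmp]
      have h6 : mn x * (C * (|Fr T x - mn x| ^ q / mn x ^ q)) ≤
          C' * |Fr T x - mn x| ^ q := by
        have h7 : mn x * (C * (|Fr T x - mn x| ^ q / mn x ^ q)) =
            C * mn x ^ (1 - q) * |Fr T x - mn x| ^ q := by
          rw [Real.rpow_sub hmp, Real.rpow_one]
          ring
        rw [h7]
        apply mul_le_mul_of_nonneg_right _ (by positivity)
        rw [hC']
        have h8 : mn x ^ (1 - q) ≤ b ^ (1 - q) :=
          Real.rpow_le_rpow_of_nonpos hb0 hbm (by linarith)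
        have := mul_le_mul_of_nonneg_left h8 hC
        linarith
      have h9 : mn x * (1 + δ) ≤ mn x + δ := by
        have := mn_le x
        nlinarith
      rw [h5] at h4
      show mn x * (Fr T x / mn x) ^ q ≤ _
      calc mn x * (Fr T x / mn x) ^ q ≤
            mn x * (1 + δ + C * (|Fr T x - mn x| ^ q / mn x ^ q)) := h4
        _ = mn x * (1 + δ) + mn x * (C * (|Fr T x - mn x| ^ q / mn x ^ q)) := by ring
        _ ≤ _ := by linarith
    have h4 : ∫ x in a..A, δ = ε / 2 := by
      rw [intervalIntegral.integral_const, smul_eq_mul, hδ]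
      field_simp
    have h5 : C' * ∫ x in a..A, |Fr T x - mn x| ^ q ≤ ε / 2 := by
      calc C' * ∫ x in a..A, |Fr T x - mn x| ^ q ≤ C' * (ε / (2 * C')) := by gcongr
        _ = ε / 2 := by field_simp
    linarith

end Pool.Agent.Y749.SF
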