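import Pool.Agent.Y749.SF.E

/-! # One-sided bounds for convex moments of the form factor: statements -/

set_option autoImplicit false

open MeasureTheory Set Filter Topology

namespace Pool.Agent.Y749.SF.P

open Pool.Agent.Y744.G (zeros mult X Montgomery N)
open Pool.Agent.Y749.Rig (Fr mn mn_cont Fr_cont Fr_nonneg MeanUp)
open Pool.Agent.Y749.Rig.P (F F_eq min_eq)
open Pool.Agent.Y749.SF (ci Sup)
open Pool.Agent.Y744 (Aa)

variable {l : Filter ℝ}

/-- the upper bound for the convex moments -/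
def ConvexUpper (l : Filter ℝ) (φ : ℝ → ℝ) (R η : ℝ) : Prop := ∀ a A : ℝ, 0 < a → a < A → A ≤ R →
  ∀ ε : ℝ, 0 < ε → ∀ᶠ T in l, ∫ α in a..A, min α 1 * φ ((F T α).re / min α 1) ≤
    φ 1 * (∫ α in a..A, min α 1) + η + ε

/-- convergence in the mean -/
def MeanConv (l : Filter ℝ) (φ : ℝ → ℝ) : Prop := ∀ a A : ℝ, 0 < a → a < A →
  ∀ ε : ℝ, 0 < ε → ∀ᶠ T in l, ∫ α in a..A, |(F T α).re - min α 1| ≤ ε ∧
    ∫ α in a..A, |min α 1 * φ ((F T α).re / min α 1) - φ 1 * min α 1| ≤ ε

/-- weak repulsion -/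
def WeakRepulsion (l : Filter ℝ) : Prop := ∀ ε : ℝ, 0 < ε → ∃ v₀ : ℝ, 0 < v₀ ∧
  ∀ v : ℝ, 0 < v → v ≤ v₀ → ∀ᶠ T in l, (N T (-v) v : ℝ) ≤ (1 + ε * v) * X T

lemma conv_int {T : ℝ} (hT : 10 ≤ T) {a A : ℝ} (ha : 0 < a) (haA : a < A) (g : ℝ → ℝ → ℝ) :
    ∫ α in a..A, g (F T α).re (min α 1) = ∫ α in a..A, g (Fr T α) (mn α) := by
  refine intervalIntegral.integral_congr fun α hα => ?_
  rw [uIcc_of_le haA.le] at hα
  show g (F T α).re (min α 1) = g (Fr T α) (mn α)
  rw [F_eq hT, Complex.ofReal_re]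
  unfold mn
  rw [abs_of_pos (by linarith [hα.1])]

lemma cu_iff (hl : l ≤ atTop) (φ : ℝ → ℝ) : (∀ R : ℝ, ConvexUpper l φ R 0) ↔ CU l φ := by
  constructor
  · intro h a A ha haA ε hε
    filter_upwards [h A a A ha haA le_rfl ε hε, hl (eventually_ge_atTop 10)] with T h1 hT
    rw [conv_int hT ha haA (fun x y => y * φ (x / y)), min_eq ha haA, add_zero] at h1
    exact h1
  · intro h R a A ha haA _ ε hε
    filter_upwards [h a A ha haA ε hε, hl (eventually_ge_atTop 10)] with T h1 hT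
    rw [conv_int hT ha haA (fun x y => y * φ (x / y)), min_eq ha haA, add_zero]
    exact h1

lemma mc_iff (hl : l ≤ atTop) (φ : ℝ → ℝ) : MeanConv l φ ↔ MC l φ := by
  unfold MeanConv MC
  refine forall_congr' fun a => forall_congr' fun A => forall_congr' fun ha =>
    forall_congr' fun haA => forall_congr' fun ε => forall_congr' fun _ => ?_
  constructor
  · intro h
    filter_upwards [h, hl (eventually_ge_atTop 10)] with T h1 hT
    rwa [conv_int hT ha haA (fun x y => |x - y|),
      conv_int hT ha haA (fun x y => |y * φ (x / y) - φ 1 * y|)] at h1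
  · intro h
    filter_upwards [h, hl (eventually_ge_atTop 10)] with T h1 hT
    rwa [conv_int hT ha haA (fun x y => |x - y|),
      conv_int hT ha haA (fun x y => |y * φ (x / y) - φ 1 * y|)]

lemma N_Aa {T : ℝ} (hT : 10 ≤ T) (v : ℝ) : (N T (-v) v : ℝ) = Aa T v * X T := by
  have h1 : (1 : ℝ) < T := by linarith
  rw [Pool.Agent.Y744.G.N_eq h1, Pool.Agent.Y744.G.X_eq]
  have h2 := (Pool.Agent.Y744.Xf_pos h1).ne'
  unfold Pool.Agent.Y744.Aa
  have : {x : ℝ | |x| ≤ v} = Icc (-v) v := by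
    ext x
    simp only [mem_ofPred_eq, mem_Icc]
    exact abs_le
  rw [this]
  field_simp

lemma rep_iff (hl : l ≤ atTop) : WeakRepulsion l ↔ Rep l := by
  refine forall_congr' fun ε => forall_congr' fun _ => exists_congr fun v0 =>
    and_congr_right fun _ => forall_congr' fun v => forall_congr' fun _ => forall_congr' fun _ => ?_
  have key : ∀ T : ℝ, 10 ≤ T → ((N T (-v) v : ℝ) ≤ (1 + ε * v) * X T ↔ Aa T v ≤ 1 + ε * v) := by
    intro T hT
    have h1 : (1 : ℝ) < T := by linarith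
    rw [N_Aa hT, Pool.Agent.Y744.G.X_eq]
    exact mul_le_mul_iff_left₀ (Pool.Agent.Y744.Xf_pos h1)
  constructor
  · intro h
    filter_upwards [h, hl (eventually_ge_atTop 10)] with T h1 hT
    exact (key T hT).1 h1
  · intro h
    filter_upwards [h, hl (eventually_ge_atTop 10)] with T h1 hT
    exact (key T hT).2 h1

lemma sup_posp : Sup (fun t => max (t - 1) 0) (1 / 2) where
  conv := by
    refine ConvexOn.sup ?_ (convexOn_const 0 (convex_Ici 0))
    exact ((convexOn_id (convex_Ici (0 : ℝ))).add_const (-1)).congr fun x _ => by simp [sub_eq_add_neg]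
  cont := by fun_prop
  line := by
    intro t ht h1
    rcases lt_or_gt_of_ne h1 with h | h
    · have : max (t - 1) 0 = 0 := max_eq_right (by linarith)
      simp only [this, sub_self, max_self]
      linarith
    · have : max (t - 1) 0 = t - 1 := max_eq_left (by linarith)
      simp only [this, sub_self, max_self]
      linarith

lemma sup_negp : Sup (fun t => max (1 - t) 0) (-(1 / 2)) where
  conv := by
    refine ConvexOn.sup ?_ (convexOn_const 0 (convex_Ici 0))
    refine ⟨convex_Ici 0, fun x _ y _ a b _ _ hab => ?_⟩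
    simp only [smul_eq_mul]
    nlinarith
  cont := by fun_prop
  line := by
    intro t ht h1
    rcases lt_or_gt_of_ne h1 with h | h
    · have : max (1 - t) 0 = 1 - t := max_eq_left (by linarith)
      simp only [this, sub_self, max_self]
      linarith
    · have : max (1 - t) 0 = 0 := max_eq_right (by linarith)
      simp only [this, sub_self, max_self]
      linarith

/-- convergence in the mean -/
def L1 (l : Filter ℝ) : Prop := ∀ a A : ℝ, 0 < a → a < A → ∀ ε : ℝ, 0 < ε →
  ∀ᶠ T in l, ∫ α in a..A, |(F T α).re - min α 1| ≤ ε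

lemma part_iff (ψ : ℝ → ℝ) (h0 : ψ 0 = 0) (hψ : ∀ m x : ℝ, 0 < m → m * ψ (x / m) = ψ x)
    (hc : Continuous ψ) (h1 : ∀ x, |ψ x| ≤ |x|) (hl : l ≤ atTop) :
    ((∀ R : ℝ, ConvexUpper l (fun t => ψ (t - 1)) R 0) ↔ (∀ a A : ℝ, 0 < a → a < A → ∀ ε : ℝ, 0 < ε →
      ∀ᶠ T in l, ∫ α in a..A, ψ ((F T α).re - min α 1) ≤ ε)) ∧
    (MeanConv l (fun t => ψ (t - 1)) ↔ L1 l) := by
  have hid : ∀ {T : ℝ}, ∀ {a A : ℝ}, 0 < a → a < A →
      ∫ α in a..A, min α 1 * ψ ((F T α).re / min α 1 - 1) =
        ∫ α in a..A, ψ ((F T α).re - min α 1) := by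
    intro T a A ha haA
    refine intervalIntegral.integral_congr fun α hα => ?_
    rw [uIcc_of_le haA.le] at hα
    have hm : 0 < min α 1 := lt_min (by linarith [hα.1]) one_pos
    show min α 1 * ψ ((F T α).re / min α 1 - 1) = ψ ((F T α).re - min α 1)
    rw [← hψ (min α 1) ((F T α).re - min α 1) hm, sub_div, div_self hm.ne']
  have hid2 : ∀ {T : ℝ}, ∀ {a A : ℝ}, 0 < a → a < A →
      ∫ α in a..A, |min α 1 * ψ ((F T α).re / min α 1 - 1) - 0 * min α 1| =
        ∫ α in a..A, |ψ ((F T α).re - min α 1)| := by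
    intro T a A ha haA
    refine intervalIntegral.integral_congr fun α hα => ?_
    rw [uIcc_of_le haA.le] at hα
    have hm : 0 < min α 1 := lt_min (by linarith [hα.1]) one_pos
    show |min α 1 * ψ ((F T α).re / min α 1 - 1) - 0 * min α 1| = |ψ ((F T α).re - min α 1)|
    rw [← hψ (min α 1) ((F T α).re - min α 1) hm, sub_div, div_self hm.ne', zero_mul, sub_zero]
  constructor
  · constructor
    · intro h a A ha haA ε hε
      filter_upwards [h A a A ha haA le_rfl ε hε] with T hT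
      simp only [sub_self, h0, zero_mul, zero_add] at hT
      rwa [hid ha haA] at hT
    · intro h R a A ha haA _ ε hε
      filter_upwards [h a A ha haA ε hε] with T hT
      simp only [sub_self, h0, zero_mul, zero_add]
      rwa [hid ha haA]
  · constructor
    · intro h a A ha haA ε hε
      filter_upwards [h a A ha haA ε hε] with T hT
      exact hT.1
    · intro h a A ha haA ε hε
      filter_upwards [h a A ha haA ε hε, hl (eventually_ge_atTop 10)] with T hT hT10
      refine ⟨hT, ?_⟩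
      simp only [sub_self, h0]
      rw [hid2 ha haA]
      refine le_trans ?_ hT
      rw [conv_int hT10 ha haA (fun x y => |ψ (x - y)|),
        conv_int hT10 ha haA (fun x y => |x - y|)]
      have hF := Fr_cont T
      have c1 : Continuous fun x => |ψ (Fr T x - mn x)| := (hc.comp (hF.sub mn_cont)).abs
      have c2 : Continuous fun x => |Fr T x - mn x| := (hF.sub mn_cont).abs
      exact intervalIntegral.integral_mono_on haA.le (ci c1 _ _) (ci c2 _ _) fun x _ => h1 _

lemma pos_iff (hl : l ≤ atTop) (RH : RiemannHypothesis) :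
    (∀ a A : ℝ, 0 < a → a < A → ∀ ε : ℝ, 0 < ε →
      ∀ᶠ T in l, ∫ α in a..A, max ((F T α).re - min α 1) 0 ≤ ε) ↔ L1 l := by
  have h := part_iff (l := l) (fun x => max x 0) (by simp) (fun m x hm => by
    rw [mul_max_of_nonneg _ _ hm.le, mul_div_cancel₀ _ hm.ne', mul_zero]) (by fun_prop)
    (fun x => by
      rw [abs_of_nonneg (le_max_right _ _)]
      exact max_le (le_abs_self x) (abs_nonneg x)) hl
  have h2 := iff_pos RH hl sup_posp (by norm_num)
  rw [← h.1, ← h.2, mc_iff hl, cu_iff hl]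
  exact h2

lemma neg_iff (hl : l ≤ atTop) (RH : RiemannHypothesis) :
    ((∀ a A : ℝ, 0 < a → a < A → ∀ ε : ℝ, 0 < ε →
      ∀ᶠ T in l, ∫ α in a..A, max (min α 1 - (F T α).re) 0 ≤ ε) ∧ WeakRepulsion l) ↔ L1 l := by
  have h := part_iff (l := l) (fun x => max (-x) 0) (by simp) (fun m x hm => by
    rw [mul_max_of_nonneg _ _ hm.le, ← neg_div, mul_div_cancel₀ _ hm.ne', mul_zero]) (by fun_prop)
    (fun x => by
      rw [abs_of_nonneg (le_max_right _ _)]
      exact max_le (neg_le_abs x) (abs_nonneg x)) hl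
  simp only [neg_sub] at h
  have h2 := iff_neg RH hl sup_negp (by norm_num)
  rw [← h.1, ← h.2, mc_iff hl, cu_iff hl, rep_iff hl]
  exact h2

lemma L1_iff (hl : l ≤ atTop) : L1 l ↔ ∀ a A : ℝ, 0 < a → a < A → ∀ ε : ℝ, 0 < ε →
    ∀ᶠ T in l, ∫ α in a..A, |Fr T α - mn α| ≤ ε := by
  unfold L1
  refine forall_congr' fun a => forall_congr' fun A => forall_congr' fun ha =>
    forall_congr' fun haA => forall_congr' fun ε => forall_congr' fun _ => ?_
  constructor
  · intro h
    filter_upwards [h, hl (eventually_ge_atTop 10)] with T h1 hT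
    rwa [conv_int hT ha haA (fun x y => |x - y|)] at h1
  · intro h
    filter_upwards [h, hl (eventually_ge_atTop 10)] with T h1 hT
    rwa [conv_int hT ha haA (fun x y => |x - y|)]

/-- the uniform upper half -/
lemma unif (hl : l ≤ atTop) (RH : RiemannHypothesis)
    (h : ∀ a A : ℝ, 0 < a → a < A → ∀ ε : ℝ, 0 < ε → ∀ᶠ T in l, ∀ α : ℝ, a ≤ α → α ≤ A →
      (F T α).re ≤ min α 1 + ε) {q : ℝ} (hq : 1 < q) {a A : ℝ} (ha : 0 < a) (haA : a < A)
    {ε : ℝ} (hε : 0 < ε) : ∀ᶠ T in l, ∫ α in a..A, |(F T α).re - min α 1| ^ q ≤ ε := by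
  have h1 : L1 l := by
    rw [← pos_iff hl RH]
    intro a A ha haA ε hε
    have hAa : 0 < A - a := by linarith
    filter_upwards [h a A ha haA (ε / (A - a)) (by positivity), hl (eventually_ge_atTop 10)]
      with T h1 hT
    rw [conv_int hT ha haA (fun x y => max (x - y) 0)]
    have hF := Fr_cont T
    have c1 : Continuous fun x => max (Fr T x - mn x) 0 := (hF.sub mn_cont).max continuous_const
    calc ∫ x in a..A, max (Fr T x - mn x) 0 ≤ ∫ x in a..A, ε / (A - a) := by
          refine intervalIntegral.integral_mono_on haA.le (ci c1 _ _) (by simp) fun x hx => ?_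
          have h2 := h1 x hx.1 hx.2
          rw [F_eq hT, Complex.ofReal_re] at h2
          have h3 : min x 1 = mn x := by
            unfold mn
            rw [abs_of_pos (by linarith [hx.1])]
          rw [h3] at h2
          exact max_le (by linarith) (by positivity)
      _ = ε := by
          rw [intervalIntegral.integral_const, smul_eq_mul]
          field_simp
  filter_upwards [h a A ha haA 1 one_pos, h1 a A ha haA (ε / 2 ^ (q - 1)) (by positivity),
    hl (eventually_ge_atTop 10)] with T h2 h3 hT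
  have hF := Fr_cont T
  have hF0 := Fr_nonneg hT
  rw [conv_int hT ha haA (fun x y => |x - y| ^ q)]
  rw [conv_int hT ha haA (fun x y => |x - y|)] at h3
  have c1 : Continuous fun x => |Fr T x - mn x| ^ q :=
    (Real.continuous_rpow_const (by linarith)).comp (hF.sub mn_cont).abs
  have c2 : Continuous fun x => 2 ^ (q - 1) * |Fr T x - mn x| :=
    continuous_const.mul (hF.sub mn_cont).abs
  calc ∫ x in a..A, |Fr T x - mn x| ^ q ≤ ∫ x in a..A, 2 ^ (q - 1) * |Fr T x - mn x| := by
        refine intervalIntegral.integral_mono_on haA.le (ci c1 _ _) (ci c2 _ _) fun x hx => ?_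
        have h4 := h2 x hx.1 hx.2
        rw [F_eq hT, Complex.ofReal_re] at h4
        have h5 : min x 1 = mn x := by
          unfold mn
          rw [abs_of_pos (by linarith [hx.1])]
        rw [h5] at h4
        have h6 := Pool.Agent.Y749.Rig.mn_le x
        have h7 := Pool.Agent.Y749.Rig.mn_nonneg x
        have h8 : |Fr T x - mn x| ≤ 2 := by
          rw [abs_le]
          constructor <;> linarith [hF0 x]
        obtain ⟨y, hy⟩ : ∃ y : ℝ, y = |Fr T x - mn x| := ⟨_, rfl⟩
        have hy0 : 0 ≤ y := by rw [hy]; exact abs_nonneg _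
        rw [← hy] at h8 ⊢
        rcases hy0.eq_or_lt with h9 | h9
        · rw [← h9, Real.zero_rpow (by linarith), mul_zero]
        · have h10 : y ^ q = y ^ (q - 1) * y := by
            rw [← Real.rpow_add_one h9.ne', sub_add_cancel]
          rw [h10]
          apply mul_le_mul_of_nonneg_right _ hy0
          exact Real.rpow_le_rpow hy0 h8 (by linarith)
    _ = 2 ^ (q - 1) * ∫ x in a..A, |Fr T x - mn x| := intervalIntegral.integral_const_mul _ _
    _ ≤ 2 ^ (q - 1) * (ε / 2 ^ (q - 1)) := by gcongr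
    _ = ε := by field_simp

theorem main (hRH : RiemannHypothesis) (l : Filter ℝ) (hl : l ≤ atTop) :
    ((∀ a A : ℝ, 0 < a → a < A → ∀ ε : ℝ, 0 < ε →
      ∀ᶠ T in l, ∫ α in a..A, max ((F T α).re - min α 1) 0 ≤ ε) ↔ L1 l) ∧
    (((∀ a A : ℝ, 0 < a → a < A → ∀ ε : ℝ, 0 < ε →
      ∀ᶠ T in l, ∫ α in a..A, max (min α 1 - (F T α).re) 0 ≤ ε) ∧ WeakRepulsion l) ↔ L1 l) ∧
    (∀ q : ℝ, 1 < q → ((∀ R : ℝ, ConvexUpper l (fun t => t ^ q) R 0) ↔
      ∀ a A : ℝ, 0 < a → a < A → ∀ ε : ℝ, 0 < ε →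
        ∀ᶠ T in l, ∫ α in a..A, |(F T α).re - min α 1| ^ q ≤ ε)) ∧
    ((∀ a A : ℝ, 0 < a → a < A → ∀ ε : ℝ, 0 < ε → ∀ᶠ T in l, ∀ α : ℝ, a ≤ α → α ≤ A →
      (F T α).re ≤ min α 1 + ε) → ∀ q : ℝ, 1 < q → ∀ a A : ℝ, 0 < a → a < A →
      ∀ ε : ℝ, 0 < ε → ∀ᶠ T in l, ∫ α in a..A, |(F T α).re - min α 1| ^ q ≤ ε) ∧
    (L1 l → Montgomery l) ∧
    (∀ (φ : ℝ → ℝ) (p : ℝ), ConvexOn ℝ (Ici 0) φ → ContinuousOn φ (Ici 0) →
      (∀ t : ℝ, 0 ≤ t → t ≠ 1 → φ 1 + p * (t - 1) < φ t) →
      (0 < p → ((∀ R : ℝ, ConvexUpper l φ R 0) ↔ MeanConv l φ)) ∧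
      (p < 0 → (((∀ R : ℝ, ConvexUpper l φ R 0) ∧ WeakRepulsion l) ↔ MeanConv l φ)) ∧
      (0 < p → ∀ R η : ℝ, 1 ≤ R → 0 ≤ η → ConvexUpper l φ R η → ∀ a A : ℝ, 0 < a → a < A →
        A < R → ∀ ε : ℝ, 0 < ε → ∀ᶠ T in l, ∫ α in a..A,
          (min α 1 * φ ((F T α).re / min α 1) - φ 1 * min α 1 - p * ((F T α).re - min α 1)) ≤
            (R * η + p / 6) / (R - A) + ε)) := by
  refine ⟨pos_iff hl hRH, neg_iff hl hRH, fun q hq => ?_, fun h q hq a A ha haA ε hε =>
    unif hl hRH h hq ha haA hε, fun h => ?_, fun φ p h1 h2 h3 => ?_⟩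
  · rw [cu_iff hl, iff_pow hRH hl hq]
    refine forall_congr' fun a => forall_congr' fun A => forall_congr' fun ha =>
      forall_congr' fun haA => forall_congr' fun ε => forall_congr' fun _ => ?_
    constructor
    · intro h
      filter_upwards [h, hl (eventually_ge_atTop 10)] with T h1 hT
      rwa [conv_int hT ha haA (fun x y => |x - y| ^ q)]
    · intro h
      filter_upwards [h, hl (eventually_ge_atTop 10)] with T h1 hT
      rwa [conv_int hT ha haA (fun x y => |x - y| ^ q)] at h1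
  · refine (Pool.Agent.Y749.Rig.P.main hRH l hl).1.2 fun R => ?_
    rw [Pool.Agent.Y749.Rig.P.up_iff hl]
    intro a b ha hab _ ε hε
    filter_upwards [(L1_iff hl).1 h a b ha hab ε hε] with T h1
    have hFc := Fr_cont T
    have c1 : Continuous fun x => |Fr T x - mn x| := (hFc.sub mn_cont).abs
    have c2 : Continuous fun x => mn x + |Fr T x - mn x| := mn_cont.add c1
    have h3 : ∫ x in a..b, Fr T x ≤ (∫ x in a..b, mn x) + ∫ x in a..b, |Fr T x - mn x| := by
      rw [← intervalIntegral.integral_add (ci mn_cont _ _) (ci c1 _ _)]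
      refine intervalIntegral.integral_mono_on hab.le (ci hFc _ _) (ci c2 _ _) fun x _ => ?_
      have := le_abs_self (Fr T x - mn x)
      linarith
    linarith
  · have hs : Sup φ p := ⟨h1, h2, h3⟩
    refine ⟨fun hp => ?_, fun hp => ?_, fun hp R η hR hη hc a A ha haA hAR ε hε => ?_⟩
    · rw [cu_iff hl, mc_iff hl]
      exact iff_pos hRH hl hs hp
    · rw [cu_iff hl, mc_iff hl, rep_iff hl]
      exact iff_neg hRH hl hs hp
    · have hc' : ∀ a B : ℝ, 0 < a → a < B → B ≤ R → ∀ ε : ℝ, 0 < ε → ∀ᶠ T in l,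
          ∫ x in a..B, mn x * φ (Fr T x / mn x) ≤ φ 1 * (∫ x in a..B, mn x) + η + ε := by
        intro a B ha haB hBR ε hε
        filter_upwards [hc a B ha haB hBR ε hε, hl (eventually_ge_atTop 10)] with T h1 hT
        rwa [conv_int hT ha haB (fun x y => y * φ (x / y)), min_eq ha haB] at h1
      filter_upwards [core_pos hRH hl hs hp hR hη hc' ha haA hAR hε,
        hl (eventually_ge_atTop 10)] with T h1 hT
      rw [conv_int hT ha haA (fun x y => y * φ (x / y) - φ 1 * y - p * (x - y))]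
      exact h1

end Pool.Agent.Y749.SF.P
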